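import Pool.Agent.Helper48_Idx.Rep
import Pool.Agent.Helper85_Idx.Sgl

/-!
# The value of a context without its long returns
-/

set_option autoImplicit false

namespace Pool.Agent.Z3

open Pool.Agent.Idx Pool.Agent.Idx.H48

variable {T : Type} {Γ : Gram T}

/-- sums of the integer vector weight `v` -/
def sv (v : T → Fin 3 → ℤ) (w : List T) : Fin 3 → ℤ := fun i => vs (fun t => v t i) w

/-- exchange of the words of the items -/
def ex (U : Γ.N × Bool → List T) : Item Γ → Item Γ
  | Sum.inl t => Sum.inl t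
  | Sum.inr x => Sum.inr (x.1, U (x.1, x.2.2), x.2.2)

theorem form_ex (U : Γ.N × Bool → List T) (c : List (Item Γ)) : form (c.map (ex U)) = form c := by
  unfold form
  rw [List.map_map]
  refine List.map_congr_left fun x _ => ?_
  rcases x with t | ⟨A, u, b⟩ <;> rfl

theorem mem_ex {U : Γ.N × Bool → List T} {c : List (Item Γ)} {A : Γ.N} {u : List T} {b : Bool}
    (h : Sum.inr (A, u, b) ∈ c.map (ex U)) : u = U (A, b) ∧ ∃ u', Sum.inr (A, u', b) ∈ c := by
  obtain ⟨x, hx, hxe⟩ := List.mem_map.1 h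
  rcases x with t | ⟨A', u', b'⟩
  · exact absurd hxe (by simp [ex])
  · simp only [ex, Sum.inr.injEq, Prod.mk.injEq] at hxe
    obtain ⟨rfl, rfl, rfl⟩ := hxe
    exact ⟨rfl, u', hx⟩

theorem kv_ex (v : T → ℤ) (U : Γ.N × Bool → List T) (c : List (Item Γ))
    (h : ∀ A u, Sum.inr (A, u, false) ∈ c → vs v (U (A, false)) = vs v u) :
    kv v (c.map (ex U)) = kv v c := by
  induction c with
  | nil => rfl
  | cons x c ih =>
    have ih' := ih (fun A u hm => h A u (List.mem_cons_of_mem _ hm))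
    rcases x with t | ⟨A, u, b⟩
    · simp only [List.map_cons, ex, kv, ih']
    · cases b
      · simp only [List.map_cons, ex, kv, ih', h A u List.mem_cons_self]
      · simp only [List.map_cons, ex, kv, ih']

theorem hp_ex (U : Γ.N × Bool → List T) (c : List (Item Γ)) :
    hp (c.map (ex U)) = (hp c).map (fun x => (x.1, U (x.1, true))) := by
  induction c with
  | nil => rfl
  | cons x c ih =>
    rcases x with t | ⟨A, u, b⟩
    · simpa [ex, hp] using ih
    · cases b
      · simpa [ex, hp] using ih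
      · simpa [ex, hp] using ih

/-- the class of a stack -/
def Cls2 (v : T → Fin 3 → ℤ) (A : Γ.N) (f : Γ.F) (Occ : Set (Γ.N × Bool)) (e : Γ.N → Fin 3 → ℤ)
    (x : List Γ.F × (Γ.N × Bool → List T)) : Prop :=
  (∀ y ∈ Occ, x.2 y ∈ Lang Γ y.1 x.1) ∧
  (∀ E, (E, false) ∈ Occ → sv v (x.2 (E, false)) = e E) ∧
  (∀ w ∈ Lang Γ A (f :: x.1), ∀ w' ∈ Lang Γ A (f :: x.1), sv v w = sv v w')

theorem P1 (Γ : Gram T) (v : T → Fin 3 → ℤ) (B : ℕ) : ∃ C : ℕ, ∀ (A : Γ.N) (f : Γ.F)
    (σ : List Γ.F) (c : List (Item Γ)), (∃ n, D Γ n [Sum.inr A] [f] (form c)) → Fill σ c →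
    (∀ w ∈ Lang Γ A (f :: σ), sv v w = sv v (flat c)) →
    (∀ E u b, Sum.inr (E, u, b) ∈ c → ∀ u' ∈ Lang Γ E σ, sv v u' = sv v u) →
    (∀ E u, Sum.inr (E, u, false) ∈ c → ∀ i, |sv v u i| ≤ B) →
    ∀ i, |kv (fun t => v t i) c| ≤ C * (1 + (hp c).length) := by
  classical
  have := Γ.finN
  have := Γ.finF
  have := Fintype.ofFinite Γ.N
  let Bx : Set (Fin 3 → ℤ) := Set.Icc (fun _ => -(B : ℤ)) (fun _ => (B : ℤ))
  have hBx : Bx.Finite := Set.finite_Icc _ _
  have := hBx.to_subtype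
  let I := Γ.N × Γ.F × Set (Γ.N × Bool) × (Γ.N → Bx)
  -- a bound for each class
  let P : I → (List Γ.F × (Γ.N × Bool → List T)) → Prop := fun κ x =>
    Cls2 v κ.1 κ.2.1 κ.2.2.1 (fun E => (κ.2.2.2 E).1) x
  let ch : I → (List Γ.F × (Γ.N × Bool → List T)) := fun κ =>
    if h : ∃ x, P κ x then h.choose else ([], fun _ => [])
  let e1 : I → ℕ := fun κ => if h : ∃ w, w ∈ Lang Γ κ.1 (κ.2.1 :: (ch κ).1) then
    ∑ i, (sv v h.choose i).natAbs else 0
  let e2 : I → ℕ := fun κ => ∑ E, ∑ i, (sv v ((ch κ).2 (E, true)) i).natAbs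
  obtain ⟨C1, hC1⟩ := (Set.finite_range e1).bddAbove
  obtain ⟨C2, hC2⟩ := (Set.finite_range e2).bddAbove
  refine ⟨C1 + C2, ?_⟩
  intro A f σ c hD hF hone hsgl hsmall i
  -- the key of the context
  let Occ : Set (Γ.N × Bool) := {y | ∃ u, Sum.inr (y.1, u, y.2) ∈ c}
  have hz : (0 : Fin 3 → ℤ) ∈ Bx := by
    constructor <;> intro i <;> simp
  let e : Γ.N → Bx := fun E => if h : ∃ u, Sum.inr (E, u, false) ∈ c then
    ⟨sv v h.choose, by
      have h1 := hsmall E _ h.choose_spec
      constructor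
      · intro i; exact (abs_le.1 (h1 i)).1
      · intro i; exact (abs_le.1 (h1 i)).2⟩ else ⟨0, hz⟩
  have he : ∀ E u, Sum.inr (E, u, false) ∈ c → (e E).1 = sv v u := by
    intro E u hm
    have h : ∃ u, Sum.inr (E, u, false) ∈ c := ⟨u, hm⟩
    have h1 : (e E).1 = sv v h.choose := by
      show (dite _ _ _ : Bx).1 = _
      rw [dif_pos h]
    rw [h1]
    exact hsgl E u false hm _ (hF E _ false h.choose_spec)
  let κ : I := (A, f, Occ, e)
  have hex : ∃ x, P κ x := by
    choose U hU using fun (y : Occ) => y.2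
    refine ⟨(σ, fun y => if hy : y ∈ Occ then U ⟨y, hy⟩ else []), ?_, ?_, ?_⟩
    · intro y hy
      show (if hy : y ∈ Occ then U ⟨y, hy⟩ else []) ∈ Lang Γ y.1 σ
      rw [dif_pos hy]
      exact hF _ _ _ (hU ⟨y, hy⟩)
    · intro E hE
      show sv v (if hy : (E, false) ∈ Occ then U ⟨(E, false), hy⟩ else []) = (e E).1
      rw [dif_pos hE]
      exact (he E _ (hU ⟨(E, false), hE⟩)).symm
    · intro w hw w' hw'
      rw [hone w hw, hone w' hw']
  have hch : P κ (ch κ) := by
    have h1 : ch κ = hex.choose := dif_pos hex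
    rw [h1]
    exact hex.choose_spec
  obtain ⟨q1, q2, q3⟩ := hch
  -- the new filling
  set U := (ch κ).2 with hUdef
  obtain ⟨n, hn⟩ := hD
  have hfill : Fill (ch κ).1 (c.map (ex U)) := by
    intro E u b hm
    obtain ⟨rfl, u', hu'⟩ := mem_ex hm
    exact q1 (E, b) ⟨u', hu'⟩
  have hn' : D Γ n [Sum.inr A] [f] (form (c.map (ex U))) := by rw [form_ex]; exact hn
  have hL : flat (c.map (ex U)) ∈ Lang Γ A ([f] ++ (ch κ).1) := Lang_of_Fill hn' hfill
  have hex2 : ∃ w, w ∈ Lang Γ κ.1 (κ.2.1 :: (ch κ).1) := ⟨_, hL⟩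
  have h1 : e1 κ = ∑ i, (sv v hex2.choose i).natAbs := dif_pos hex2
  have h2 : sv v (flat (c.map (ex U))) = sv v hex2.choose := q3 _ hL _ hex2.choose_spec
  have h3 : (sv v hex2.choose i).natAbs ≤ C1 := by
    refine le_trans ?_ (hC1 ⟨κ, rfl⟩)
    rw [h1]
    exact Finset.single_le_sum (f := fun i => (sv v hex2.choose i).natAbs)
      (fun _ _ => Nat.zero_le _) (Finset.mem_univ i)
  have h4 : ∀ E, (sv v (U (E, true)) i).natAbs ≤ C2 := by
    intro E
    refine le_trans ?_ (hC2 ⟨κ, rfl⟩)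
    refine le_trans ?_ (Finset.single_le_sum (f := fun E => ∑ i, (sv v (U (E, true)) i).natAbs)
      (fun _ _ => Nat.zero_le _) (Finset.mem_univ E))
    exact Finset.single_le_sum (f := fun i => (sv v (U (E, true)) i).natAbs)
      (fun _ _ => Nat.zero_le _) (Finset.mem_univ i)
  have h5 := vs_flat (fun t => v t i) (c.map (ex U))
  have h6 : kv (fun t => v t i) (c.map (ex U)) = kv (fun t => v t i) c := by
    refine kv_ex _ _ _ fun E u hm => ?_
    have := q2 E ⟨u, hm⟩
    have h7 : sv v (U (E, false)) = sv v u := by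
      rw [this]
      exact he E u hm
    exact congrFun h7 i
  rw [h6, hp_ex, List.map_map] at h5
  have h7 : |((hp c).map ((fun x => vs (fun t => v t i) x.2) ∘
      fun x => (x.1, U (x.1, true)))).sum| ≤ (hp c).length * (C2 : ℤ) := by
    have : ∀ L : List (Γ.N × List T), |(L.map ((fun x => vs (fun t => v t i) x.2) ∘
      fun x => (x.1, U (x.1, true)))).sum| ≤ L.length * (C2 : ℤ) := by
      intro L
      induction L with
      | nil => simp
      | cons x L ih =>
        rw [List.map_cons, List.sum_cons, List.length_cons]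
        have h8 : |vs (fun t => v t i) (U (x.1, true))| ≤ (C2 : ℤ) := by
          have := h4 x.1
          have h9 : |sv v (U (x.1, true)) i| = ((sv v (U (x.1, true)) i).natAbs : ℤ) :=
            Int.abs_eq_natAbs _
          rw [show vs (fun t => v t i) (U (x.1, true)) = sv v (U (x.1, true)) i from rfl, h9]
          exact_mod_cast this
        refine le_trans (abs_add_le _ _) ?_
        simp only [Function.comp] at ih ⊢
        push_cast
        linarith
    exact this (hp c)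
  have h8 : |vs (fun t => v t i) (flat (c.map (ex U)))| ≤ (C1 : ℤ) := by
    have h9 : vs (fun t => v t i) (flat (c.map (ex U))) = sv v hex2.choose i := congrFun h2 i
    rw [h9, Int.abs_eq_natAbs]
    exact_mod_cast h3
  rw [abs_le] at h7 h8 ⊢
  push_cast
  have h9 : (0 : ℤ) ≤ (C1 : ℤ) * ((hp c).length : ℤ) := by positivity
  have h10 : (0 : ℤ) ≤ (C2 : ℤ) := by positivity
  constructor <;> nlinarith

end Pool.Agent.Z3
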