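import Pool.Agent.Helper13_Z3.OneD
import Pool.Agent.Helper13_Z3.Rep2

/-!
# Definitions and statements: no free abelian group of rank three
-/

set_option autoImplicit false

namespace Pool.Agent.Z3

open Pool.Agent.Idx Pool.Agent.Idx.H48

/-! ## Masks -/

section Masks

variable {T : Type} {Γ : Gram T}

/-- change of the marks of the items: `b s u` is the new mark of an item with word `u` that starts
at the position `s` -/
def rf (b : ℕ → List T → Bool) : ℕ → List (Item Γ) → List (Item Γ)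
  | _, [] => []
  | s, Sum.inl t :: c => Sum.inl t :: rf b (s + 1) c
  | s, Sum.inr x :: c => Sum.inr (x.1, x.2.1, b s x.2.1) :: rf b (s + x.2.1.length) c

/-- the positions of the annotated form `c` that starts at the position `s`, without the items
marked by `b` -/
def cv (b : ℕ → List T → Bool) : ℕ → List (Item Γ) → ℕ → Bool
  | _, [], _ => false
  | s, Sum.inl _ :: c, j => (j == s) || cv b (s + 1) c j
  | s, Sum.inr x :: c, j => (!(b s x.2.1) && decide (s ≤ j) && decide (j < s + x.2.1.length)) ||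
      cv b (s + x.2.1.length) c j

/-- there is an item with nonterminal `E` and word `u` that starts at the position `s'` -/
def At (s : ℕ) (c : List (Item Γ)) (s' : ℕ) (E : Γ.N) (u : List T) : Prop :=
  ∃ (c₁ c₂ : List (Item Γ)) (b : Bool), c = c₁ ++ Sum.inr (E, u, b) :: c₂ ∧
    s' = s + (flat c₁).length

/-- CVL: lemmas on masks. -/
def CvlStmt : Prop := ∀ (T : Type) (Γ : Gram T) (b b' : ℕ → List T → Bool) (s : ℕ)
    (c d : List (Item Γ)),
  -- append
  (∀ j, cv b s (c ++ d) j = (cv b s c j || cv b (s + (flat c).length) d j)) ∧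
  -- support
  (∀ j, cv b s c j = true → s ≤ j ∧ j < s + (flat c).length) ∧
  -- re-marking
  (form (rf b s c) = form c ∧ flat (rf b s c) = flat c ∧
    ∀ σ, Fill σ c → Fill σ (rf b s c)) ∧
  (∀ E u b', Sum.inr (E, u, b') ∈ rf b s c → ∃ s' b'', At s c s' E u ∧ b' = b s' u ∧
    Sum.inr (E, u, b'') ∈ c) ∧
  -- relation to masks
  (∀ P Z : List T, P.length = s → ∀ j, (fmask P Z (rf b s c)).getD j false = cv b s c j) ∧
  -- a position of the interval is covered or in a marked item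
  (∀ j, s ≤ j → j < s + (flat c).length → cv b s c j = true ∨
    ∃ s' E u, At s c s' E u ∧ s' ≤ j ∧ j < s' + u.length ∧ b s' u = true) ∧
  -- a position in a marked item is not covered
  (∀ s' E u j, At s c s' E u → s' ≤ j → j < s' + u.length → b s' u = true →
    cv b s c j = false) ∧
  -- comparison at one position
  (∀ j, (∀ s' E u, At s c s' E u → s' ≤ j → j < s' + u.length → b' s' u = true →
    b s' u = true) → cv b s c j = true → cv b' s c j = true)

/-- items of length at least `R` -/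
def big (R : ℕ) : ℕ → List T → Bool := fun _ u => decide (R ≤ u.length)

/-- items of length at least `R` that end after the position `m` -/
def bigm (R m : ℕ) : ℕ → List T → Bool := fun s u => decide (R ≤ u.length ∧ m < s + u.length)

end Masks

/-! ## Long returns -/

/-- GAP: for every node there is a gap between the short and the long returns; without the long
returns the value is small. `sv v w` is the vector value of a word. The mark of the items is
`true` if the value is long. -/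
def GapStmt : Prop := ∀ (T : Type) (Γ : Gram T) (v : T → Fin 3 → ℤ) (Q : ℕ),
  (∀ t i, |v t i| ≤ 3) → ∃ M₀ C₀ : ℕ, ∀ (A : Γ.N) (f : Γ.F) (σ : List Γ.F) (c : List (Item Γ)),
    (∃ n, D Γ n [Sum.inr A] [f] (form c)) → Fill σ c →
    (∀ w ∈ Lang Γ A (f :: σ), sv v w = sv v (flat c)) →
    (∀ E u b, Sum.inr (E, u, b) ∈ c → ∀ u' ∈ Lang Γ E σ, sv v u' = sv v u) →
    ∃ (b : List T → Bool),
      (∀ E u b', Sum.inr (E, u, b') ∈ c → b u = false → ∀ i, |sv v u i| ≤ M₀) ∧
      (∀ E u b', Sum.inr (E, u, b') ∈ c → b u = true → ∃ i, (Q : ℤ) < |sv v u i|) ∧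
      (∀ s i, (Q : ℤ) * |kv (fun t => v t i) (rf (fun _ u => b u) s c)| ≤
        Q * C₀ + (flat c).length)

/-! ## The word -/

/-- letters -/
abbrev L3 : Type := Bool ⊕ (Fin 3 × Bool)

/-- values of the letters -/
def vec : L3 → Fin 3 → ℤ
  | Sum.inl false => ![-1, 0, 0]
  | Sum.inl true => ![0, -1, 0]
  | Sum.inr (k, s) => ![1, (k.val : ℤ) + 1, if s then 1 else -1]

/-- increments of the curved side -/
def kf (n p : ℕ) : ℕ := (p + 1) ^ 2 / n - p ^ 2 / n

/-- letters of the curved side -/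
def cl (n : ℕ) (sgn : ℕ → ℤ) (p : ℕ) : L3 :=
  Sum.inr (⟨min (kf n p) 2, by omega⟩, decide (sgn p = 1))

/-- letter at the position `j` -/
def wl (n : ℕ) (sgn : ℕ → ℤ) (j : ℕ) : L3 :=
  if j < n then Sum.inl false else if j < 3 * n then Sum.inl true else cl n sgn (j - 3 * n)

/-- the word -/
def W (n : ℕ) (sgn : ℕ → ℤ) : List L3 := (List.range (4 * n)).map (wl n sgn)

/-- the free abelian group of rank three, written multiplicatively -/
abbrev V3 : Type := Multiplicative (Fin 3 → ℤ)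

/-- evaluation of the letters -/
def evz (t : L3) : V3 := Multiplicative.ofAdd (vec t)

/-- GEO: geometry of the word. -/
def GeoStmt : Prop := ∀ (n : ℕ) (sgn : ℕ → ℤ), 1 ≤ n → (∀ p, sgn p = 1 ∨ sgn p = -1) →
  -- length and letters
  (W n sgn).length = 4 * n ∧ (∀ t i, |vec t i| ≤ 3) ∧
  (∀ (i : Fin 3) j, j < 4 * n → vat (fun t => vec t i) (W n sgn) j = vec (wl n sgn j) i) ∧
  -- letters of the curved side
  (∀ p, p < n → vec (wl n sgn (3 * n + p)) 0 = 1 ∧ 1 ≤ vec (wl n sgn (3 * n + p)) 1 ∧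
    vec (wl n sgn (3 * n + p)) 2 = sgn p) ∧
  -- the word is closed
  (∑ p ∈ Finset.range n, sgn p = 0 → sv vec (W n sgn) = 0) ∧
  -- values and vector sums
  (∀ w w' : List L3, val evz w = val evz w' ↔ sv vec w = sv vec w') ∧
  -- G1: a long interval with small value
  (∀ (M s t : ℕ), s ≤ t → t ≤ 4 * n → |sv vec (sl (W n sgn) s t) 0| ≤ M →
    |sv vec (sl (W n sgn) s t) 1| ≤ M → 5 * M < t - s → s < n ∧ 3 * n < t ∧ 4 * n ≤ t + M) ∧
  -- G2: two intervals of the curved side with the same value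
  (∀ s t s' t' : ℕ, 3 * n ≤ s → s ≤ s' → s ≤ t → t ≤ 4 * n → s' ≤ t' → t' ≤ 4 * n →
    sv vec (sl (W n sgn) s t) 0 = sv vec (sl (W n sgn) s' t') 0 →
    sv vec (sl (W n sgn) s t) 1 = sv vec (sl (W n sgn) s' t') 1 →
    t - s = t' - s' ∧ (s' - s) * (t - s) < n)

/-! ## Nodes -/

/-- a node of a derivation of the word `w`: the nonterminal `A` with stack `f :: σ`, the
annotated form `c` (returns from `f`), the position `s` -/
structure Nd {T G : Type} [Group G] (ev : T → G) (Γ : Gram T) (w : List T) (s : ℕ) (A : Γ.N)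
    (f : Γ.F) (σ : List Γ.F) (c : List (Item Γ)) : Prop where
  loc : ∃ P Z, w = P ++ flat c ++ Z ∧ P.length = s
  der : ∃ n, D Γ n [Sum.inr A] [f] (form c)
  fill : Fill σ c
  one : ∀ u ∈ Lang Γ A (f :: σ), val ev u = val ev (flat c)

/-- the four properties of a node: balance, cuts, heavy nodes meet all three sides, few big
items meet the curved side. `n` = length of the curved side (positions `3n, …, 4n - 1`). -/
structure Good {T : Type} {Γ : Gram T} (n R k : ℕ) (δ : ℤ) (sgn : ℕ → ℤ) (s : ℕ)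
    (c : List (Item Γ)) : Prop where
  bal : |V sgn (fun p => cv (big R) s c (3 * n + p)) n| ≤ δ
  cut : cuts (fun p => cv (big R) s c (3 * n + p)) n ≤ 6 * k + 2
  left : δ < cnt (fun p => cv (big R) s c (3 * n + p)) n → ∃ j, j < n ∧ cv (big R) s c j = true
  mid : δ < cnt (fun p => cv (big R) s c (3 * n + p)) n →
    ∃ j, n ≤ j ∧ j < 3 * n ∧ cv (big R) s c j = true
  few : (holes s (rf (bigm R (3 * n)) s c)).length ≤ 3 * k

/-- WIN: few long items of small length on the curved side: the positions of the curved side in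
items marked by `b` of length `< R`. -/
def WinStmt : Prop := ∀ (Γ : Gram L3) (k n R Q : ℕ) (sgn : ℕ → ℤ) (s : ℕ) (A : Γ.N) (f : Γ.F)
    (σ : List Γ.F) (c : List (Item Γ)) (b : List L3 → Bool), Nat.card Γ.N = k → 1 ≤ n →
  (∀ p, sgn p = 1 ∨ sgn p = -1) → Nd evz Γ (W n sgn) s A f σ c →
  (∀ E u b', Sum.inr (E, u, b') ∈ c → b u = true → ∃ i, (3 * Q : ℤ) < |sv vec u i|) →
  2 * n ≤ Q * R →
  cnt (fun p => cv (big R) s c (3 * n + p) && !(cv (fun _ u => b u) s c (3 * n + p))) n ≤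
    (2 * k + 1) * R

/-- FEW: few big items meet the curved side; few cuts. -/
def FewStmt : Prop := ∀ (Γ : Gram L3) (k n R : ℕ) (sgn : ℕ → ℤ) (s : ℕ) (A : Γ.N) (f : Γ.F)
    (σ : List Γ.F) (c : List (Item Γ)), Nat.card Γ.N = k → 1 ≤ n →
  (∀ p, sgn p = 1 ∨ sgn p = -1) → Nd evz Γ (W n sgn) s A f σ c → n ≤ R * R → 1 ≤ R →
  (holes s (rf (bigm R (3 * n)) s c)).length ≤ 3 * k ∧
  cuts (fun p => cv (big R) s c (3 * n + p)) n ≤ 6 * k + 2

/-- NODE: all nodes are good. -/
def NodeStmt : Prop := ∀ (Γ : Gram L3) (k Q : ℕ), Nat.card Γ.N = k → ∃ R₀ : ℕ,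
  ∀ (n R : ℕ) (sgn : ℕ → ℤ), R₀ ≤ R → 1 ≤ n → n ≤ Q * R →
    (∀ p, sgn p = 1 ∨ sgn p = -1) → ∀ (s : ℕ) (A : Γ.N) (f : Γ.F) (σ : List Γ.F)
    (c : List (Item Γ)), Nd evz Γ (W n sgn) s A f σ c →
    Good n R k ((2 * k + 3) * R) sgn s c

/-! ## The heavy path -/

/-- a chain of masks with property `P` that shrinks to a small mask in small steps -/
inductive Chain (P : (ℕ → Bool) → Prop) (n : ℕ) (e : ℤ) : (ℕ → Bool) → Prop
  | stop {X : ℕ → Bool} : P X → cnt X n ≤ e → Chain P n e X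
  | step {X Y : ℕ → Bool} : P X → (∀ p, p < n → Y p = true → X p = true) →
      cnt X n - cnt Y n ≤ e → Chain P n e Y → Chain P n e X

/-- HVY: the heavy path. -/
def HvyStmt : Prop := ∀ (T G : Type) (_ : Group G) (ev : T → G) (Γ : Gram T) (w : List T)
    (n R k r q : ℕ) (δ : ℤ) (sgn : ℕ → ℤ),
  (∀ A α, (A, α) ∈ Γ.R1 → α.length ≤ r) → (∀ A f α, (A, f, α) ∈ Γ.R3 → α.length ≤ r) →
  r ≤ q → 3 * k + 1 ≤ q → 1 ≤ δ → (R : ℤ) ≤ δ → (r : ℤ) ≤ δ →
  (∀ u ∈ Lang Γ Γ.S [Γ.bot], val ev u = 1) → w ∈ Lang Γ Γ.S [Γ.bot] → w.length = 4 * n →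
  (∀ s A f σ c, Nd ev Γ w s A f σ c → Good n R k δ sgn s c) →
  ∃ X : ℕ → Bool, (∀ p, p < n → X p = true) ∧
    Chain (fun X => |V sgn X n| ≤ δ ∧ cuts X n ≤ 6 * k + 2) n ((q + 1) * δ) X

/-- GRP: letters of rank three in a group with indexed word problem. -/
def GrpStmt : Prop := ∀ (G : Type) (_ : Group G) (ι : Type) (g : ι → G),
  Subgroup.closure (Set.range g) = ⊤ → IsIndexed (WP g) → ∀ a b c : G, Commute a b →
  Commute a c → Commute b c → (∀ i j l : ℤ, a ^ i * b ^ j * c ^ l = 1 → i = 0 ∧ j = 0 ∧ l = 0) →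
  ∃ Γ : Gram L3, Lang Γ Γ.S [Γ.bot] = {w | val evz w = 1}

/-- FINAL -/
def FinalStmt : Prop := ∀ (G : Type) (_ : Group G) (ι : Type) (g : ι → G),
  Subgroup.closure (Set.range g) = ⊤ → IsIndexed (WP g) → ∀ a b c : G, Commute a b →
  Commute a c → Commute b c → ∃ i j l : ℤ, a ^ i * b ^ j * c ^ l = 1 ∧ (i ≠ 0 ∨ j ≠ 0 ∨ l ≠ 0)

end Pool.Agent.Z3
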