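import Pool.Agent.Helper13_Z3.Defs

/-!
# Assembly
-/

set_option autoImplicit false

namespace Pool.Agent.Z3.H13

open Pool.Agent.Idx Pool.Agent.Idx.H48 Pool.Agent.Z3

theorem chain_seq {P : (ℕ → Bool) → Prop} {n : ℕ} {e : ℤ} {X : ℕ → Bool} (h : Chain P n e X) :
    ∃ (N : ℕ) (Y : ℕ → ℕ → Bool), Y 0 = X ∧ (∀ t, t ≤ N → P (Y t)) ∧
      (∀ t p, t < N → p < n → Y (t + 1) p = true → Y t p = true) ∧
      (∀ t, t < N → cnt (Y t) n - cnt (Y (t + 1)) n ≤ e) ∧ cnt (Y N) n ≤ e := by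
  induction h with
  | @stop X hP hX =>
    refine ⟨0, fun _ => X, rfl, fun _ _ => hP, ?_, ?_, hX⟩
    · intro t p ht; omega
    · intro t ht; omega
  | @step X Z hP hsub hst _ ih =>
    obtain ⟨N, Y, h0, h1, h2, h3, h4⟩ := ih
    refine ⟨N + 1, fun t => Nat.casesOn t X (fun t => Y t), rfl, ?_, ?_, ?_, h4⟩
    · intro t ht
      cases t with
      | zero => exact hP
      | succ t => exact h1 t (by omega)
    · intro t p ht hp hY
      cases t with
      | zero =>
        refine hsub p hp ?_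
        rw [← h0]
        exact hY
      | succ t => exact h2 t p (by omega) hp hY
    · intro t ht
      cases t with
      | zero =>
        show cnt X n - cnt (Y 0) n ≤ e
        rw [h0]
        exact hst
      | succ t => exact h3 t (by omega)

theorem len_scale (m g j : ℕ) : len m g j = g * len m 1 j := by
  induction j with
  | zero => simp only [len]; ring
  | succ j ih => simp only [len]; rw [ih]; ring

theorem tot_scale (m g J : ℕ) : tot m g J = g * tot m 1 J := by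
  unfold tot
  rw [len_scale m g J]
  ring

theorem sum_sig (m g J : ℕ) : ∑ p ∈ Finset.range (tot m g J), sig m g J p = 0 := by
  unfold tot
  rw [Finset.sum_range_add]
  have h1 : ∑ p ∈ Finset.range (len m g J), sig m g J p = 2 * (m ^ J * g : ℕ) := by
    rw [← height m g J]
    refine Finset.sum_congr rfl fun p hp => ?_
    unfold sig
    rw [if_pos (Finset.mem_range.1 hp)]
  have h2 : ∑ p ∈ Finset.range (2 * (m ^ J * g)), sig m g J (len m g J + p) =
      - (2 * (m ^ J * g : ℕ)) := by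
    rw [Finset.sum_congr rfl (g := fun _ => (-1 : ℤ)) fun p _ => by
      unfold sig
      rw [if_neg (by omega)]]
    simp
  rw [h1, h2]
  ring

theorem exists_rhs {T : Type} (Γ : Gram T) : ∃ r : ℕ,
    (∀ A α, (A, α) ∈ Γ.R1 → α.length ≤ r) ∧ (∀ A f α, (A, f, α) ∈ Γ.R3 → α.length ≤ r) := by
  obtain ⟨r1, h1⟩ := (Γ.fin1.image (fun x => x.2.length)).bddAbove
  obtain ⟨r3, h3⟩ := (Γ.fin3.image (fun x => x.2.2.length)).bddAbove
  refine ⟨max r1 r3, ?_, ?_⟩
  · intro A α h
    exact le_trans (h1 ⟨(A, α), h, rfl⟩) (le_max_left _ _)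
  · intro A f α h
    exact le_trans (h3 ⟨(A, f, α), h, rfl⟩) (le_max_right _ _)

theorem noZ3 (hG : GeoStmt) (hN : NodeStmt) (hH : HvyStmt) (Γ : Gram L3)
    (hL : Lang Γ Γ.S [Γ.bot] = {w | val evz w = 1}) : False := by
  obtain ⟨r, hr1, hr3⟩ := exists_rhs Γ
  obtain ⟨k, hk⟩ : ∃ k, Nat.card Γ.N = k := ⟨_, rfl⟩
  set J : ℕ := 6 * k + 2 with hJ
  set m : ℕ := 8 * J + 4 with hm
  set q : ℕ := max r (3 * k + 1) with hq
  set Dc : ℕ := 4 * (q + 1) * (2 * k + 3) + 1 with hDc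
  obtain ⟨R₀, hR₀⟩ := hN Γ k (tot m 1 J * Dc) hk
  set G : ℕ := R₀ + r + 1 with hGdef
  set g : ℕ := Dc * G with hg
  have hgpos : 0 < g := Nat.mul_pos (by omega) (by omega)
  set n : ℕ := tot m g J with hn
  have hnQ : n = tot m 1 J * Dc * G := by
    rw [hn, tot_scale, hg]; ring
  have hn1 : 1 ≤ n := by
    have h1 : 0 < m ^ J * g := Nat.mul_pos (Nat.pow_pos (by omega)) hgpos
    rw [hn]
    unfold tot
    omega
  have hsgn : ∀ p, sig m g J p = 1 ∨ sig m g J p = -1 := sig_abs m g J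
  obtain ⟨hlen, _, _, _, hcl, hval, _, _⟩ := hG n (sig m g J) hn1 hsgn
  have hw : W n (sig m g J) ∈ Lang Γ Γ.S [Γ.bot] := by
    rw [hL]
    show val evz (W n (sig m g J)) = 1
    have h1 : val evz (W n (sig m g J)) = val evz [] := by
      rw [hval, hcl (sum_sig m g J)]
      rfl
    rw [h1]
    simp
  have hδ : (((2 * k + 3) * G : ℕ) : ℤ) = (2 * (k : ℤ) + 3) * (G : ℤ) := by push_cast; ring
  have hG1 : (1 : ℤ) ≤ G := by
    have : 1 ≤ G := by omega
    exact_mod_cast this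
  have hk0 : (0 : ℤ) ≤ k := Int.natCast_nonneg k
  have hGδ : (G : ℤ) ≤ (2 * (k : ℤ) + 3) * (G : ℤ) := by nlinarith
  obtain ⟨X, hX, hch⟩ := hH L3 V3 _ evz Γ (W n (sig m g J)) n G k r q
    ((2 * (k : ℤ) + 3) * (G : ℤ)) (sig m g J) hr1 hr3 (le_max_left _ _) (le_max_right _ _)
    (le_trans hG1 hGδ) hGδ
    (le_trans (by have : r ≤ G := by omega
                  exact_mod_cast this) hGδ)
    (by intro u hu; rw [hL] at hu; exact hu) hw hlen
    (by
      intro s A f σ c hNd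
      have h1 := hR₀ n G (sig m g J) (by omega) hn1 (le_of_eq hnQ) hsgn s A f σ c hNd
      simpa using h1)
  obtain ⟨N, Y, h0, h1, h2, h3, h4⟩ := chain_seq hch
  set e : ℤ := (q + 1) * ((2 * (k : ℤ) + 3) * (G : ℤ)) with he
  have he4 : 4 * e < g := by
    rw [he, hg, hDc]
    push_cast
    nlinarith
  have hδe : (2 * (k : ℤ) + 3) * (G : ℤ) ≤ e := by
    have hq0 : (0 : ℤ) ≤ q := Int.natCast_nonneg q
    rw [he]
    nlinarith [mul_nonneg hq0 (le_trans (le_trans (by norm_num : (0 : ℤ) ≤ 1) hG1) hGδ)]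
  refine oneD J m g (le_of_eq hm.symm) hgpos e he4 Y N ?_ h2 h3 ?_ ?_ h4
  · intro p hp
    rw [h0]
    exact hX p hp
  · intro t ht
    exact le_trans (h1 t ht).1 hδe
  · intro t ht
    have := (h1 t ht).2
    rw [hJ]
    push_cast
    exact this

theorem final (hG : GeoStmt) (hN : NodeStmt) (hH : HvyStmt) (hGr : GrpStmt) : FinalStmt := by
  intro G _ ι g hgen hI a b c hab hac hbc
  by_contra hcon
  push Not at hcon
  obtain ⟨Γ, hΓ⟩ := hGr G _ ι g hgen hI a b c hab hac hbc (by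
    intro i j l h
    exact hcon i j l h)
  exact noZ3 hG hN hH Γ hΓ

end Pool.Agent.Z3.H13
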