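import Pool.Agent.Helper13_Z3.Defs

/-!
# The heavy path
-/

set_option autoImplicit false

namespace Pool.Agent.Z3.H13

open Pool.Agent.Idx Pool.Agent.Idx.H48 Pool.Agent.Z3

/-! ## Counting -/

theorem cnt_or (a b : ℕ → Bool) (n : ℕ) : cnt (fun p => a p || b p) n ≤ cnt a n + cnt b n := by
  unfold cnt
  rw [← Finset.sum_add_distrib]
  refine Finset.sum_le_sum fun p _ => ?_
  cases ha : a p <;> cases hb : b p <;> simp [ha, hb]

theorem exists_of_cnt {a : ℕ → Bool} {n : ℕ} (h : 0 < cnt a n) : ∃ p, p < n ∧ a p = true := by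
  by_contra hcon
  push Not at hcon
  have : cnt a n = 0 := by
    unfold cnt
    refine Finset.sum_eq_zero fun p hp => ?_
    rw [if_neg (hcon p (Finset.mem_range.1 hp))]
  omega

theorem cnt_le_union (n : ℕ) (L : List (ℕ → Bool)) : ∀ X : ℕ → Bool,
    (∀ p, p < n → X p = true → ∃ Y ∈ L, Y p = true) → cnt X n ≤ (L.map (fun Y => cnt Y n)).sum := by
  induction L with
  | nil =>
    intro X h
    have : cnt X n = 0 := by
      unfold cnt
      refine Finset.sum_eq_zero fun p hp => ?_
      rw [if_neg]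
      intro hX
      obtain ⟨Y, hY, _⟩ := h p (Finset.mem_range.1 hp) hX
      simp at hY
    simp [this]
  | cons Z L ih =>
    intro X h
    have h1 := ih (fun p => X p && !(Z p)) (by
      intro p hp hX
      simp only [Bool.and_eq_true, Bool.not_eq_true'] at hX
      obtain ⟨Y, hY, hYp⟩ := h p hp hX.1
      rcases List.mem_cons.1 hY with rfl | hY
      · rw [hX.2] at hYp; exact Bool.noConfusion hYp
      · exact ⟨Y, hY, hYp⟩)
    have h2 : cnt X n ≤ cnt Z n + cnt (fun p => X p && !(Z p)) n := by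
      refine le_trans (cnt_mono (μ := fun p => Z p || (X p && !(Z p))) ?_) (cnt_or _ _ _)
      intro p _ hp
      cases hz : Z p <;> simp [hp]
    simp only [List.map_cons, List.sum_cons]
    linarith

theorem sum_le_of_light (n : ℕ) (δ : ℤ) (L : List (ℕ → Bool)) (h : ∀ Y ∈ L, cnt Y n ≤ δ) :
    (L.map (fun Y => cnt Y n)).sum ≤ L.length * δ := by
  induction L with
  | nil => simp
  | cons Z L ih =>
    have h1 := ih (fun Y hY => h Y (List.mem_cons_of_mem _ hY))
    have h2 := h Z List.mem_cons_self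
    simp only [List.map_cons, List.sum_cons, List.length_cons]
    push_cast
    linarith

theorem heavy_or (n : ℕ) (δ : ℤ) (hδ : 0 ≤ δ) (L : List (ℕ → Bool))
    (hpw : L.Pairwise (fun Y Z => cnt Y n ≤ δ ∨ cnt Z n ≤ δ)) :
    (∀ Y ∈ L, cnt Y n ≤ δ) ∨
      ∃ Y ∈ L, δ < cnt Y n ∧ (L.map (fun Y => cnt Y n)).sum ≤ cnt Y n + L.length * δ := by
  induction L with
  | nil => left; intro Y hY; simp at hY
  | cons Z L ih =>
    obtain ⟨h1, h2⟩ := List.pairwise_cons.1 hpw
    rcases le_or_gt (cnt Z n) δ with hZ | hZ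
    · rcases ih h2 with h3 | ⟨Y, hY, h3, h4⟩
      · left
        intro Y hY
        rcases List.mem_cons.1 hY with rfl | hY
        · exact hZ
        · exact h3 Y hY
      · right
        refine ⟨Y, List.mem_cons_of_mem _ hY, h3, ?_⟩
        simp only [List.map_cons, List.sum_cons, List.length_cons]
        push_cast
        linarith
    · right
      refine ⟨Z, List.mem_cons_self, hZ, ?_⟩
      have h3 := sum_le_of_light n δ L (fun Y hY => by
        rcases h1 Y hY with h | h
        · exact absurd h (not_le.2 hZ)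
        · exact h)
      simp only [List.map_cons, List.sum_cons, List.length_cons]
      push_cast
      linarith

theorem one_heavy (n : ℕ) (δ : ℤ) (hδ : 0 ≤ δ) (X : ℕ → Bool) (L : List (ℕ → Bool))
    (hcov : ∀ p, p < n → X p = true → ∃ Y ∈ L, Y p = true)
    (hpw : L.Pairwise (fun Y Z => cnt Y n ≤ δ ∨ cnt Z n ≤ δ))
    (hX : L.length * δ < cnt X n) :
    ∃ Y ∈ L, δ < cnt Y n ∧ cnt X n - cnt Y n ≤ L.length * δ := by
  have h1 := cnt_le_union n L X hcov
  rcases heavy_or n δ hδ L hpw with h2 | ⟨Y, hY, h3, h4⟩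
  · have h3 := sum_le_of_light n δ L h2
    linarith
  · exact ⟨Y, hY, h3, by linarith⟩

/-! ## Measured fillings -/

variable {T : Type} {Γ : Gram T}

/-- measured filling -/
inductive FM (σ : List Γ.F) : ℕ → List (Item Γ) → Prop
  | nil : FM σ 0 []
  | letter {n : ℕ} (t : T) {c : List (Item Γ)} : FM σ n c → FM σ n (Sum.inl t :: c)
  | item {m n k : ℕ} {A : Γ.N} {u : List T} {b : Bool} {c : List (Item Γ)} :
      D Γ m [Sum.inr A] σ (u.map Sum.inl) → FM σ n c → m + n = k →
      FM σ k (Sum.inr (A, u, b) :: c)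

theorem FM.fill {σ : List Γ.F} {n : ℕ} {c : List (Item Γ)} (h : FM σ n c) : Fill σ c := by
  induction h with
  | nil => intro A u b hm; simp at hm
  | letter t _ ih =>
    intro A u b hm
    rcases List.mem_cons.1 hm with hm | hm
    · exact absurd hm (by simp)
    · exact ih A u b hm
  | item hD _ _ ih =>
    intro A u b hm
    rcases List.mem_cons.1 hm with hm | hm
    · simp only [Sum.inr.injEq, Prod.mk.injEq] at hm
      obtain ⟨rfl, rfl, rfl⟩ := hm
      exact ⟨_, hD⟩
    · exact ih A u b hm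

theorem FM.der {σ : List Γ.F} {n : ℕ} {c : List (Item Γ)} (h : FM σ n c) :
    D Γ n (form c) σ ((flat c).map Sum.inl) := by
  induction h with
  | nil => exact D.nil _
  | letter t _ ih => simpa [isym, iword] using D.term t ih
  | item hD _ hk ih =>
    subst hk
    simpa [isym, iword] using D_append hD ih

theorem FM.split {σ : List Γ.F} {c d : List (Item Γ)} : ∀ {n : ℕ}, FM σ n (c ++ d) →
    ∃ n₁ n₂, n₁ + n₂ = n ∧ FM σ n₁ c ∧ FM σ n₂ d := by
  induction c with
  | nil => intro n h; exact ⟨0, n, by simp, FM.nil, h⟩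
  | cons x c ih =>
    intro n h
    rw [List.cons_append] at h
    cases h with
    | letter t h =>
      obtain ⟨n₁, n₂, h1, h2, h3⟩ := ih h
      exact ⟨n₁, n₂, h1, FM.letter t h2, h3⟩
    | item hD h hk =>
      obtain ⟨n₁, n₂, h1, h2, h3⟩ := ih h
      exact ⟨_, n₂, by omega, FM.item hD h2 rfl, h3⟩

theorem FM_word (σ : List Γ.F) (w : List T) :
    FM σ 0 (w.map (fun t => (Sum.inl t : Item Γ))) := by
  induction w with
  | nil => exact FM.nil
  | cons t w ih => exact FM.letter t ih

/-! ## Refinement -/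

/-- `c` refines `c'`: the items of `c'` are derived down to the returns from `f` -/
inductive Ref (f : Γ.F) (σ : List Γ.F) (B : ℕ) : List (Item Γ) → List (Item Γ) → Prop
  | nil : Ref f σ B [] []
  | letter (t : T) {c' c : List (Item Γ)} : Ref f σ B c' c →
      Ref f σ B (Sum.inl t :: c') (Sum.inl t :: c)
  | item {m M : ℕ} {C : Γ.N} {d c' c : List (Item Γ)} : D Γ m [Sum.inr C] [f] (form d) →
      FM σ M d → m + M ≤ B → Ref f σ B c' c →
      Ref f σ B (Sum.inr (C, flat d, false) :: c') (d ++ c)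

theorem Ref.mono {f : Γ.F} {σ : List Γ.F} {B B' : ℕ} {c' c : List (Item Γ)}
    (h : Ref f σ B c' c) (hB : B ≤ B') : Ref f σ B' c' c := by
  induction h with
  | nil => exact Ref.nil
  | letter t _ ih => exact Ref.letter t ih
  | item hD hF hm _ ih => exact Ref.item hD hF (le_trans hm hB) ih

theorem exists_ref {f : Γ.F} {σ : List Γ.F} {ψ : List (T ⊕ Γ.N)} : ∀ {l M : ℕ}
    {c : List (Item Γ)}, D Γ l ψ [f] (form c) → FM σ M c →
    ∃ c' : List (Item Γ), form c' = ψ ∧ flat c' = flat c ∧ FM (f :: σ) (l + M) c' ∧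
      Ref f σ (l + M) c' c := by
  induction ψ with
  | nil =>
    intro l M c hD hF
    obtain ⟨rfl, h0⟩ := D_nil hD
    have hc : c = [] := List.map_eq_nil_iff.1 h0
    subst hc
    cases hF
    exact ⟨[], rfl, rfl, FM.nil, Ref.nil⟩
  | cons a ψ ih =>
    intro l M c hD hF
    cases a with
    | inl t =>
      obtain ⟨φ, hφ, hD'⟩ := D_term_inv hD
      cases c with
      | nil => simp at hφ
      | cons x c =>
        simp only [form_cons, List.cons.injEq] at hφ
        obtain ⟨hx, rfl⟩ := hφ
        rcases x with t' | ⟨A, u, b⟩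
        · simp only [isym, Sum.inl.injEq] at hx
          subst hx
          cases hF with
          | letter _ hF =>
            obtain ⟨c', h1, h2, h3, h4⟩ := ih hD' hF
            refine ⟨Sum.inl t' :: c', ?_, ?_, FM.letter _ h3, Ref.letter _ h4⟩
            · rw [form_cons, h1]; rfl
            · rw [flat_cons, flat_cons, h2]
        · simp [isym] at hx
    | inr C =>
      obtain ⟨n₁, n₂, φ₁, φ₂, e, hφ, h3, h4⟩ := D_cons_inv hD
      obtain ⟨c₁, c₂, rfl, h5, h6⟩ := List.map_eq_append_iff.1 hφ
      have h5' : form c₁ = φ₁ := h5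
      have h6' : form c₂ = φ₂ := h6
      subst h5' h6'
      obtain ⟨M₁, M₂, hM, hF1, hF2⟩ := hF.split
      obtain ⟨c', g1, g2, g3, g4⟩ := ih h4 hF2
      refine ⟨Sum.inr (C, flat c₁, false) :: c', ?_, ?_, ?_, ?_⟩
      · rw [form_cons, g1]; rfl
      · rw [flat_cons, flat_append, g2]; rfl
      · exact FM.item (D_comp h3 hF1.der) g3 (by omega)
      · exact Ref.item h3 hF1 (by omega) (g4.mono (by omega))

/-- facts on a refined item -/
structure Kid (f : Γ.F) (σ : List Γ.F) (B s : ℕ) (c' c : List (Item Γ))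
    (x : ℕ × Γ.N × List (Item Γ)) : Prop where
  der : ∃ m M, D Γ m [Sum.inr x.2.1] [f] (form x.2.2) ∧ FM σ M x.2.2 ∧ m + M ≤ B
  at' : At s c' x.1 x.2.1 (flat x.2.2)
  sub : ∃ c₁ c₂, c = c₁ ++ x.2.2 ++ c₂ ∧ x.1 = s + (flat c₁).length

theorem Kid.cons {f : Γ.F} {σ : List Γ.F} {B s : ℕ} {c' c : List (Item Γ)}
    {x : ℕ × Γ.N × List (Item Γ)} {y : Item Γ} {d : List (Item Γ)}
    (hl : (iword y).length = (flat d).length)
    (h : Kid f σ B (s + (flat d).length) c' c x) : Kid f σ B s (y :: c') (d ++ c) x := by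
  obtain ⟨c₁, c₂, b, h1, h2⟩ := h.at'
  obtain ⟨d₁, d₂, h3, h4⟩ := h.sub
  refine ⟨h.der, ⟨y :: c₁, c₂, b, by rw [h1]; rfl, ?_⟩, ⟨d ++ d₁, d₂, by rw [h3]; simp, ?_⟩⟩
  · rw [h2, flat_cons, List.length_append]; omega
  · rw [h4, flat_append, List.length_append]; omega

theorem Ref.kids {f : Γ.F} {σ : List Γ.F} {B : ℕ} {c' c : List (Item Γ)} (h : Ref f σ B c' c)
    (hC : CvlStmt) (b : ℕ → List T → Bool) (b' : ℕ → List T → Bool) : ∀ s : ℕ,
    ∃ L : List (ℕ × Γ.N × List (Item Γ)), (∀ x ∈ L, Kid f σ B s c' c x) ∧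
      L.Pairwise (fun x y => x.1 + (flat x.2.2).length ≤ y.1) ∧ (∀ x ∈ L, s ≤ x.1) ∧
      L.length ≤ c'.length ∧
      (L.filter (fun x => b' x.1 (flat x.2.2))).length = (holes s (rf b' s c')).length ∧
      (∀ j, cv b s c j = true → cv b' s c' j = true ∨
        ∃ x ∈ L, b' x.1 (flat x.2.2) = true ∧ cv b x.1 x.2.2 j = true) := by
  induction h with
  | nil =>
    intro s
    refine ⟨[], ?_, List.Pairwise.nil, ?_, le_refl _, rfl, ?_⟩
    · intro x hx; simp at hx
    · intro x hx; simp at hx
    · intro j hj; simp [cv] at hj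
  | @letter t c' c _ ih =>
    intro s
    obtain ⟨L, h1, h2, h3, h4, h5, h6⟩ := ih (s + 1)
    refine ⟨L, ?_, h2, fun x hx => by have := h3 x hx; omega, ?_, ?_, ?_⟩
    · intro x hx
      have := Kid.cons (d := [Sum.inl t]) (y := Sum.inl t) (s := s) (by simp [iword])
        (by simpa [iword] using h1 x hx)
      simpa using this
    · simp only [List.length_cons]; omega
    · exact h5
    · intro j hj
      simp only [cv, Bool.or_eq_true] at hj ⊢
      rcases hj with hj | hj
      · exact Or.inl (Or.inl hj)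
      · rcases h6 j hj with h | h
        · exact Or.inl (Or.inr h)
        · exact Or.inr h
  | @item m M C d c' c hD hF hm _ ih =>
    intro s
    obtain ⟨L, h1, h2, h3, h4, h5, h6⟩ := ih (s + (flat d).length)
    obtain ⟨ca, cs, _⟩ := hC T Γ b b s d c
    refine ⟨(s, C, d) :: L, ?_, ?_, ?_, ?_, ?_, ?_⟩
    · intro x hx
      rcases List.mem_cons.1 hx with rfl | hx
      · exact ⟨⟨m, M, hD, hF, hm⟩, ⟨[], c', false, rfl, rfl⟩, ⟨[], c, by simp, by simp⟩⟩
      · exact Kid.cons (by simp [iword]) (h1 x hx)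
    · refine List.pairwise_cons.2 ⟨fun x hx => h3 x hx, h2⟩
    · intro x hx
      rcases List.mem_cons.1 hx with rfl | hx
      · exact le_refl _
      · have := h3 x hx; omega
    · simp only [List.length_cons]; omega
    · simp only [rf]
      cases hb : b' s (flat d)
      · rw [List.filter_cons_of_neg (by simp [hb])]
        simp only [holes]
        exact h5
      · rw [List.filter_cons_of_pos (by simp [hb])]
        simp only [holes, List.length_cons]
        rw [h5]
    · intro j hj
      rw [ca j, Bool.or_eq_true] at hj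
      rcases hj with hj | hj
      · have hs := cs j hj
        cases hb : b' s (flat d)
        · left
          simp only [cv, hb, Bool.not_false, Bool.true_and, Bool.or_eq_true, Bool.and_eq_true,
            decide_eq_true_eq]
          exact Or.inl hs
        · right
          exact ⟨(s, C, d), List.mem_cons_self, hb, hj⟩
      · rcases h6 j hj with h | ⟨x, hx, h7⟩
        · left
          simp only [cv, Bool.or_eq_true]
          exact Or.inr h
        · right
          exact ⟨x, List.mem_cons_of_mem _ hx, h7⟩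

/-- a small form is covered completely -/
theorem cv_small (hC : CvlStmt) {R s : ℕ} {d : List (Item Γ)} (h : (flat d).length < R) {j : ℕ}
    (h1 : s ≤ j) (h2 : j < s + (flat d).length) : cv (big R) s d j = true := by
  obtain ⟨_, _, _, _, _, ho, _, _⟩ := hC T Γ (big R) (big R) s d []
  rcases ho j h1 h2 with h3 | ⟨s', E, u, ⟨c₁, c₂, b, h4, _⟩, _, _, h5⟩
  · exact h3
  · exfalso
    have h6 : u.length ≤ (flat d).length := by
      rw [h4, flat_append, flat_cons, List.length_append, List.length_append]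
      simp only [iword]
      omega
    simp only [big, decide_eq_true_eq] at h5
    omega

theorem Ref.cv_sub {f : Γ.F} {σ : List Γ.F} {B : ℕ} {c' c : List (Item Γ)}
    (h : Ref f σ B c' c) (hC : CvlStmt) (R : ℕ) : ∀ (s j : ℕ),
    cv (big R) s c' j = true → cv (big R) s c j = true := by
  induction h with
  | nil => intro s j hj; exact hj
  | letter t _ ih =>
    intro s j hj
    simp only [cv, Bool.or_eq_true] at hj ⊢
    rcases hj with hj | hj
    · exact Or.inl hj
    · exact Or.inr (ih _ _ hj)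
  | @item m M C d c' c hD hF hm _ ih =>
    intro s j hj
    obtain ⟨ca, _⟩ := hC T Γ (big R) (big R) s d c
    rw [ca j]
    simp only [cv, Bool.or_eq_true, Bool.and_eq_true, decide_eq_true_eq, Bool.not_eq_true'] at hj ⊢
    rcases hj with ⟨⟨h1, h2⟩, h3⟩ | hj
    · left
      have h4 : (flat d).length < R := by
        simp only [big, decide_eq_false_iff_not] at h1
        omega
      exact cv_small hC h4 h2 h3
    · exact Or.inr (ih _ _ hj)

/-! ## The mask on the curved side -/

/-- the mask of a form on the curved side -/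
def XX (R m : ℕ) (s : ℕ) (c : List (Item Γ)) : ℕ → Bool := fun p => cv (big R) s c (m + p)

theorem cnt_single (m s n : ℕ) : cnt (fun p => (m + p == s)) n ≤ 1 := by
  unfold cnt
  by_cases h : m ≤ s
  · refine le_trans (Finset.sum_le_sum (g := fun p => if p = s - m then (1 : ℤ) else 0)
      fun p _ => ?_) ?_
    · by_cases hp : m + p = s
      · rw [if_pos (by omega : p = s - m)]
        split_ifs <;> norm_num
      · rw [if_neg (by simpa using hp)]
        split_ifs <;> norm_num
    · rw [Finset.sum_ite_eq' (Finset.range n) (s - m) (fun _ => (1 : ℤ))]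
      split_ifs <;> norm_num
  · refine le_trans (le_of_eq (Finset.sum_eq_zero fun p _ => ?_)) (by norm_num : (0 : ℤ) ≤ 1)
    rw [if_neg]
    simp only [beq_iff_eq]
    omega

theorem cnt_interval (m s l n : ℕ) :
    cnt (fun p => decide (s ≤ m + p) && decide (m + p < s + l)) n ≤ l := by
  unfold cnt
  rw [← Finset.sum_filter, Finset.sum_const, nsmul_eq_mul, mul_one]
  have h : (Finset.filter (fun p => (decide (s ≤ m + p) && decide (m + p < s + l)) = true)
      (Finset.range n)) ⊆ Finset.Ico (s - m) (s + l - m) := by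
    intro p hp
    simp only [Finset.mem_filter, Bool.and_eq_true, decide_eq_true_eq] at hp
    rw [Finset.mem_Ico]
    omega
  have h1 := Finset.card_le_card h
  rw [Nat.card_Ico] at h1
  have h2 : s + l - m - (s - m) ≤ l := by omega
  exact_mod_cast le_trans h1 h2

theorem cnt_letters (m n : ℕ) (c : List (Item Γ)) : ∀ s : ℕ,
    cnt (fun p => cv (fun _ _ => true) s c (m + p)) n ≤ c.length := by
  induction c with
  | nil => intro s; simp [cv, cnt]
  | cons x c ih =>
    intro s
    rcases x with t | x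
    · have h1 := ih (s + 1)
      have h2 := cnt_or (fun p => (m + p == s)) (fun p => cv (fun _ _ => true) (s + 1) c (m + p)) n
      have h3 := cnt_single m s n
      simp only [cv, List.length_cons]
      push_cast
      linarith
    · have h1 := ih (s + x.2.1.length)
      simp only [cv, Bool.not_true, Bool.false_and, Bool.false_or, List.length_cons]
      push_cast
      linarith

theorem cnt_short (R m n : ℕ) (δ : ℤ) (h1 : 1 ≤ δ) (hR : (R : ℤ) ≤ δ) (c : List (Item Γ)) :
    ∀ s : ℕ, cnt (XX R m s c) n ≤ c.length * δ := by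
  induction c with
  | nil => intro s; simp [XX, cv, cnt]
  | cons x c ih =>
    intro s
    rcases x with t | x
    · have h1 := ih (s + 1)
      have h2 := cnt_or (fun p => (m + p == s)) (XX R m (s + 1) c) n
      have h3 := cnt_single m s n
      have h4 : XX R m s (Sum.inl t :: c : List (Item Γ)) =
          fun p => (m + p == s) || XX R m (s + 1) c p := rfl
      rw [h4]
      simp only [List.length_cons]
      push_cast
      linarith
    · have h1 := ih (s + x.2.1.length)
      have h4 : XX R m s (Sum.inr x :: c : List (Item Γ)) =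
          fun p => (!(big R s x.2.1) && decide (s ≤ m + p) && decide (m + p < s + x.2.1.length)) ||
            XX R m (s + x.2.1.length) c p := rfl
      rw [h4]
      have h2 := cnt_or (fun p => !(big R s x.2.1) && decide (s ≤ m + p) &&
        decide (m + p < s + x.2.1.length)) (XX R m (s + x.2.1.length) c) n
      have h3 : cnt (fun p => !(big R s x.2.1) && decide (s ≤ m + p) &&
        decide (m + p < s + x.2.1.length)) n ≤ δ := by
        cases hb : big R s x.2.1
        · have h5 := cnt_interval m s x.2.1.length n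
          simp only [Bool.not_false, Bool.true_and]
          simp only [big, decide_eq_false_iff_not, not_le] at hb
          have : (x.2.1.length : ℤ) ≤ R := by exact_mod_cast le_of_lt hb
          linarith
        · simp only [Bool.not_true, Bool.false_and]
          have : cnt (fun _ => false) n = 0 := by simp [cnt]
          rw [this]
          linarith
      simp only [List.length_cons]
      push_cast
      linarith

/-! ## The path -/

section Path

variable {G : Type} [Group G] {ev : T → G} {w : List T}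

/-- the refined items are nodes -/
theorem kid_node {s : ℕ} {A : Γ.N} {f : Γ.F} {σ : List Γ.F} {B : ℕ} {c c' : List (Item Γ)}
    (hN : Nd ev Γ w s A f σ c)
    (hone : ∀ E u b, Sum.inr (E, u, b) ∈ c' → ∀ u' ∈ Lang Γ E (f :: σ), val ev u' = val ev u)
    {x : ℕ × Γ.N × List (Item Γ)} (hx : Kid f σ B s c' c x) :
    Nd ev Γ w x.1 x.2.1 f σ x.2.2 := by
  obtain ⟨⟨m, M, hD, hF, _⟩, ⟨c₁, c₂, b, h1, _⟩, ⟨d₁, d₂, h3, h4⟩⟩ := hx
  obtain ⟨P, Z, hw, hP⟩ := hN.loc
  refine ⟨⟨P ++ flat d₁, flat d₂ ++ Z, ?_, ?_⟩, ⟨m, hD⟩, hF.fill, ?_⟩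
  · rw [hw, h3]
    simp
  · rw [List.length_append, hP, h4]
  · intro u hu
    exact hone x.2.1 (flat x.2.2) b (by rw [h1]; simp) u hu

theorem path (hC : CvlStmt) (hS : SglStmt) {n R k r q : ℕ} {δ : ℤ} {sgn : ℕ → ℤ}
    (hr1 : ∀ A α, (A, α) ∈ Γ.R1 → α.length ≤ r)
    (hr3 : ∀ A f α, (A, f, α) ∈ Γ.R3 → α.length ≤ r)
    (hrq : r ≤ q) (hkq : 3 * k + 1 ≤ q) (h1δ : 1 ≤ δ) (hRδ : (R : ℤ) ≤ δ) (hrδ : (r : ℤ) ≤ δ)
    (hgood : ∀ s A f σ c, Nd ev Γ w s A f σ c → Good n R k δ sgn s c) :
    ∀ (N m M s : ℕ) (A : Γ.N) (f : Γ.F) (σ : List Γ.F) (c : List (Item Γ)), m + M ≤ N →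
      D Γ m [Sum.inr A] [f] (form c) → FM σ M c → Nd ev Γ w s A f σ c →
      Chain (fun X => |V sgn X n| ≤ δ ∧ cuts X n ≤ 6 * k + 2) n ((q + 1) * δ)
        (XX R (3 * n) s c) := by
  intro N
  induction N with
  | zero =>
    intro m M s A f σ c hN hD hF hNd
    exfalso
    have hm : m = 0 := by omega
    subst hm
    generalize hφ : form c = φ at hD
    cases hD
  | succ N ih =>
    intro m M s A f σ c hN hD hF hNd
    have hg := hgood s A f σ c hNd
    have hP : |V sgn (XX R (3 * n) s c) n| ≤ δ ∧ cuts (XX R (3 * n) s c) n ≤ 6 * k + 2 :=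
      ⟨hg.bal, hg.cut⟩
    rcases le_or_gt (cnt (XX R (3 * n) s c) n) ((q + 1) * δ) with hsmall | hbig
    · exact Chain.stop hP hsmall
    have hrq' : (r : ℤ) ≤ q := by exact_mod_cast hrq
    have hkq' : 3 * (k : ℤ) + 1 ≤ q := by exact_mod_cast hkq
    -- two separated heavy nodes are impossible
    have hsep : ∀ s₁ A₁ f₁ σ₁ c₁ s₂ A₂ f₂ σ₂ c₂, Nd ev Γ w s₁ A₁ f₁ σ₁ c₁ →
        Nd ev Γ w s₂ A₂ f₂ σ₂ c₂ → s₁ + (flat c₁).length ≤ s₂ →
        cnt (XX R (3 * n) s₁ c₁) n ≤ δ ∨ cnt (XX R (3 * n) s₂ c₂) n ≤ δ := by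
      intro s₁ A₁ f₁ σ₁ c₁ s₂ A₂ f₂ σ₂ c₂ hN1 hN2 hle
      by_contra hcon
      push Not at hcon
      obtain ⟨j, hj, hj2⟩ := (hgood _ _ _ _ _ hN2).left hcon.2
      obtain ⟨p, _, hp2⟩ := exists_of_cnt (lt_of_le_of_lt (by linarith) hcon.1)
      obtain ⟨_, cs2, _⟩ := hC T Γ (big R) (big R) s₂ c₂ []
      obtain ⟨_, cs1, _⟩ := hC T Γ (big R) (big R) s₁ c₁ []
      have h1 := cs2 j hj2
      have h2 := cs1 _ hp2
      omega
    generalize hφ : form c = φ at hD
    cases hD with
    | @r1 n' m' _ β _ _ φ' ψ' _ hA h1 h2 =>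
      obtain ⟨rfl, rfl⟩ := D_nil h2
      rw [List.append_nil] at hφ
      rw [← hφ] at h1
      obtain ⟨c', hc1, hc2, hc3, hc4⟩ := exists_ref h1 hF
      have hone : ∀ E u b, Sum.inr (E, u, b) ∈ c' → ∀ u' ∈ Lang Γ E (f :: σ),
          val ev u' = val ev u := by
        intro E u b hm u' hu'
        obtain ⟨a₁, a₂, rfl⟩ := List.append_of_mem hm
        obtain ⟨l, hl⟩ := D_of_Fill (Fill_replace hc3.fill hu')
        have hform : form (a₁ ++ Sum.inr (E, u', b) :: a₂) = β := by
          rw [← hc1]; simp [isym]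
        rw [hform] at hl
        have hL : flat (a₁ ++ Sum.inr (E, u', b) :: a₂) ∈ Lang Γ A (f :: σ) := by
          refine ⟨l + 0 + 1, ?_⟩
          have := D.r1 (by simp) hA hl (D.nil (Γ := Γ) (f :: σ))
          rwa [List.append_nil] at this
        have h3 := hNd.one _ hL
        rw [← hc2] at h3
        simp only [flat_append, flat_cons, iword, val_append] at h3
        exact mul_right_cancel (mul_left_cancel h3)
      obtain ⟨L, k1, k2, _, k4, _, k6⟩ := hc4.kids hC (big R) (fun _ _ => true) s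
      have hkN : ∀ x ∈ L, Nd ev Γ w x.1 x.2.1 f σ x.2.2 := fun x hx =>
        kid_node hNd hone (k1 x hx)
      have hlen : c'.length ≤ r := by
        have : c'.length = β.length := by rw [← hc1]; simp [form]
        rw [this]
        exact hr1 A β hA
      set L' : List (ℕ → Bool) := (fun p => cv (fun _ _ => true) s c' (3 * n + p)) ::
        L.map (fun x => XX R (3 * n) x.1 x.2.2) with hL'
      have hlight : cnt (fun p => cv (fun _ _ => true) s c' (3 * n + p)) n ≤ δ := by
        have h3 := cnt_letters (3 * n) n c' s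
        have h4 : (c'.length : ℤ) ≤ r := by exact_mod_cast hlen
        linarith
      have hlen' : (L'.length : ℤ) ≤ q + 1 := by
        have : L'.length ≤ q + 1 := by
          rw [hL', List.length_cons, List.length_map]
          omega
        exact_mod_cast this
      obtain ⟨Y, hY, hY1, hY2⟩ := one_heavy n δ (by linarith) (XX R (3 * n) s c) L' (by
          intro p _ hp
          rcases k6 _ hp with h | ⟨x, hx, _, h⟩
          · exact ⟨_, List.mem_cons_self, h⟩
          · exact ⟨_, List.mem_cons_of_mem _ (List.mem_map.2 ⟨x, hx, rfl⟩), h⟩) (by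
          refine List.pairwise_cons.2 ⟨fun _ _ => Or.inl hlight, ?_⟩
          rw [List.pairwise_map]
          exact k2.imp_of_mem fun {x y} hx hy hxy =>
            hsep _ _ _ _ _ _ _ _ _ _ (hkN x hx) (hkN y hy) hxy) (by
          refine lt_of_le_of_lt ?_ hbig
          exact mul_le_mul_of_nonneg_right hlen' (by linarith))
      rcases List.mem_cons.1 hY with rfl | hY
      · exact absurd hlight (not_le.2 hY1)
      obtain ⟨x, hx, rfl⟩ := List.mem_map.1 hY
      obtain ⟨m₂, M₂, hD2, hF2, hm2⟩ := (k1 x hx).der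
      refine Chain.step hP ?_ ?_ (ih m₂ M₂ x.1 x.2.1 f σ x.2.2 (by omega) hD2 hF2 (hkN x hx))
      · intro p _ hp
        obtain ⟨c₁, c₂, h3, h4⟩ := (k1 x hx).sub
        show cv (big R) s c (3 * n + p) = true
        obtain ⟨ca, _⟩ := hC T Γ (big R) (big R) s (c₁ ++ x.2.2) c₂
        obtain ⟨cb, _⟩ := hC T Γ (big R) (big R) s c₁ x.2.2
        rw [h3, ca, cb, ← h4]
        have : cv (big R) x.1 x.2.2 (3 * n + p) = true := hp
        rw [this]
        simp
      · refine le_trans hY2 ?_
        exact mul_le_mul_of_nonneg_right hlen' (by linarith)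
    | @r2 n' m' _ B g _ _ φ' ψ' _ hA h1 h2 =>
      obtain ⟨rfl, rfl⟩ := D_nil h2
      rw [List.append_nil] at hφ
      rw [← hφ] at h1
      obtain ⟨m₁, l, ψ, hml, hD1, hD2⟩ := D_stack h1 [g] [f] rfl
      obtain ⟨c', hc1, hc2, hc3, hc4⟩ := exists_ref hD2 hF
      rw [← hc1] at hD1
      -- the new node
      have hNd' : Nd ev Γ w s B g (f :: σ) c' := by
        obtain ⟨P, Z, hw, hP⟩ := hNd.loc
        refine ⟨⟨P, Z, by rw [hc2]; exact hw, hP⟩, ⟨m₁, hD1⟩, hc3.fill, ?_⟩
        rintro u ⟨l', hu⟩
        rw [hc2]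
        refine hNd.one u ⟨l' + 0 + 1, ?_⟩
        have := D.r2 (by simp) hA hu (D.nil (Γ := Γ) (f :: σ))
        rwa [List.append_nil] at this
      have hone : ∀ E u b, Sum.inr (E, u, b) ∈ c' → ∀ u' ∈ Lang Γ E (f :: σ),
          val ev u' = val ev u :=
        hS T G _ ev Γ B g (f :: σ) c' ⟨m₁, hD1⟩ hc3.fill hNd'.one
      have hg' := hgood s B g (f :: σ) c' hNd'
      obtain ⟨L, k1, k2, _, _, k5, k6⟩ := hc4.kids hC (big R) (bigm R (3 * n)) s
      obtain ⟨L0, j1, j2, _, _, _, j6⟩ := hc4.kids hC (big R) (big R) s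
      have hkN : ∀ x ∈ L, Nd ev Γ w x.1 x.2.1 f σ x.2.2 := fun x hx =>
        kid_node hNd hone (k1 x hx)
      set L1 := L.filter (fun x => bigm R (3 * n) x.1 (flat x.2.2)) with hL1
      have hL1m : ∀ x ∈ L1, x ∈ L ∧ R ≤ (flat x.2.2).length := by
        intro x hx
        rw [hL1, List.mem_filter] at hx
        refine ⟨hx.1, ?_⟩
        have := hx.2
        simp only [bigm, decide_eq_true_eq] at this
        exact this.1
      set L' : List (ℕ → Bool) := XX R (3 * n) s c' ::
        L1.map (fun x => XX R (3 * n) x.1 x.2.2) with hL'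
      have hlen' : (L'.length : ℤ) ≤ q + 1 := by
        have h3 : L'.length ≤ q + 1 := by
          rw [hL', List.length_cons, List.length_map, hL1, k5]
          have := hg'.few
          omega
        exact_mod_cast h3
      obtain ⟨Y, hY, hY1, hY2⟩ := one_heavy n δ (by linarith) (XX R (3 * n) s c) L' (by
          intro p _ hp
          rcases k6 _ hp with h | ⟨x, hx, h, h'⟩
          · refine ⟨_, List.mem_cons_self, ?_⟩
            -- on the curved side the two kinds of marks agree
            obtain ⟨_, _, _, _, _, _, _, hcmp⟩ := hC T Γ (bigm R (3 * n)) (big R) s c' []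
            refine hcmp (3 * n + p) ?_ h
            intro s' E u _ _ h4 h5
            simp only [big, decide_eq_true_eq] at h5
            simp only [bigm, decide_eq_true_eq]
            exact ⟨h5, by omega⟩
          · exact ⟨_, List.mem_cons_of_mem _ (List.mem_map.2
              ⟨x, List.mem_filter.2 ⟨hx, h⟩, rfl⟩), h'⟩) (by
          refine List.pairwise_cons.2 ⟨?_, ?_⟩
          · intro Y hY
            obtain ⟨x, hx, rfl⟩ := List.mem_map.1 hY
            obtain ⟨hxL, hxR⟩ := hL1m x hx
            by_contra hcon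
            push Not at hcon
            obtain ⟨j, hj, hj', hj2⟩ := hg'.mid hcon.1
            have hgx := hgood _ _ _ _ _ (hkN x hxL)
            obtain ⟨i, hi, hi2⟩ := hgx.left hcon.2
            obtain ⟨p, _, hp2⟩ := exists_of_cnt (lt_of_le_of_lt (by linarith) hcon.2)
            obtain ⟨_, csx, _⟩ := hC T Γ (big R) (big R) x.1 x.2.2 []
            have e1 := csx i hi2
            have e2 := csx _ hp2
            obtain ⟨_, _, _, _, _, _, hnot, _⟩ := hC T Γ (big R) (big R) s c' []
            have e3 := hnot x.1 x.2.1 (flat x.2.2) j (k1 x hxL).at' (by omega) (by omega)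
              (by simp only [big, decide_eq_true_eq]; exact hxR)
            rw [hj2] at e3
            exact Bool.noConfusion e3
          · rw [List.pairwise_map]
            exact (k2.filter _).imp_of_mem fun {x y} hx hy hxy =>
              hsep _ _ _ _ _ _ _ _ _ _ (hkN x (hL1m x hx).1) (hkN y (hL1m y hy).1) hxy) (by
          refine lt_of_le_of_lt ?_ hbig
          exact mul_le_mul_of_nonneg_right hlen' (by linarith))
      rcases List.mem_cons.1 hY with rfl | hY
      · refine Chain.step hP ?_ ?_ (ih m₁ (l + M) s B g (f :: σ) c' (by omega) hD1 hc3 hNd')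
        · intro p _ hp
          exact hc4.cv_sub hC R s _ hp
        · refine le_trans hY2 ?_
          exact mul_le_mul_of_nonneg_right hlen' (by linarith)
      obtain ⟨x, hx, rfl⟩ := List.mem_map.1 hY
      have hxL := (hL1m x hx).1
      obtain ⟨m₂, M₂, hD2', hF2, hm2⟩ := (k1 x hxL).der
      refine Chain.step hP ?_ ?_ (ih m₂ M₂ x.1 x.2.1 f σ x.2.2 (by omega) hD2' hF2 (hkN x hxL))
      · intro p _ hp
        obtain ⟨c₁, c₂, h3, h4⟩ := (k1 x hxL).sub
        show cv (big R) s c (3 * n + p) = true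
        obtain ⟨ca, _⟩ := hC T Γ (big R) (big R) s (c₁ ++ x.2.2) c₂
        obtain ⟨cb, _⟩ := hC T Γ (big R) (big R) s c₁ x.2.2
        rw [h3, ca, cb, ← h4]
        have : cv (big R) x.1 x.2.2 (3 * n + p) = true := hp
        rw [this]
        simp
      · refine le_trans hY2 ?_
        exact mul_le_mul_of_nonneg_right hlen' (by linarith)
    | @r3 n' m' _ _ β _ _ φ' ψ' hA h1 h2 =>
      exfalso
      obtain ⟨rfl, rfl⟩ := D_nil h2
      obtain ⟨rfl, rfl⟩ := D_empty h1
      rw [List.append_nil] at hφ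
      have hlen : c.length ≤ r := by
        have : c.length = φ'.length := by rw [← hφ]; simp [form]
        rw [this]
        exact hr3 A f _ hA
      have h3 := cnt_short R (3 * n) n δ h1δ hRδ c s
      have h4 : (c.length : ℤ) * δ ≤ (q + 1) * δ := by
        refine mul_le_mul_of_nonneg_right ?_ (by linarith)
        have : (c.length : ℤ) ≤ r := by exact_mod_cast hlen
        linarith
      linarith

end Path

theorem flat_word (w : List T) : flat (w.map (fun t => (Sum.inl t : Item Γ))) = w := by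
  induction w with
  | nil => rfl
  | cons t w ih => rw [List.map_cons, flat_cons, ih]; rfl

theorem hvy (hC : CvlStmt) : HvyStmt := by
  intro T G _ ev Γ w n R k r q δ sgn hr1 hr3 hrq hkq h1δ hRδ hrδ hval hw hlen hgood
  obtain ⟨m, hm⟩ := hw
  have hform : form (w.map (fun t => (Sum.inl t : Item Γ))) = w.map Sum.inl := by
    unfold form
    rw [List.map_map]
    rfl
  have hflat : flat (w.map (fun t => (Sum.inl t : Item Γ))) = w := flat_word w
  refine ⟨XX R (3 * n) 0 (w.map (fun t => (Sum.inl t : Item Γ))), ?_, ?_⟩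
  · intro p hp
    obtain ⟨_, _, _, _, _, ho, _, _⟩ := hC T Γ (big R) (big R) 0
      (w.map (fun t => (Sum.inl t : Item Γ))) []
    rcases ho (3 * n + p) (Nat.zero_le _) (by rw [hflat, hlen]; omega) with h | ⟨s', E, u, h, _⟩
    · exact h
    · exfalso
      obtain ⟨c₁, c₂, b, h1, _⟩ := h
      have h2 : (Sum.inr (E, u, b) : Item Γ) ∈ w.map (fun t => (Sum.inl t : Item Γ)) := by
        rw [h1]; simp
      obtain ⟨t, _, ht⟩ := List.mem_map.1 h2
      exact absurd ht (by simp)
  · refine path hC H85.sgl hr1 hr3 hrq hkq h1δ hRδ hrδ hgood (m + 0) m 0 0 Γ.S Γ.bot [] _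
      (le_refl _) (by rw [hform]; exact hm) (FM_word _ _) ?_
    refine ⟨⟨[], [], by rw [hflat]; simp, rfl⟩, ⟨m, by rw [hform]; exact hm⟩,
      (FM_word _ _).fill, ?_⟩
    intro u hu
    rw [hflat, hval u hu, hval w ⟨m, hm⟩]

end Pool.Agent.Z3.H13
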