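import Mathlib

/-!
# The one-dimensional lemma

A sequence of signs on which a set cannot be shrunk to the empty set in small steps, with a bounded
number of cuts and with its sum staying near zero.
-/

set_option autoImplicit false

namespace Pool.Agent.Z3

open Finset

/-- sum of the weight `s` over the mask `μ` on `[0, n)` -/
def V (s : ℕ → ℤ) (μ : ℕ → Bool) (n : ℕ) : ℤ := ∑ p ∈ range n, if μ p then s p else 0

/-- size of the mask -/
def cnt (μ : ℕ → Bool) (n : ℕ) : ℤ := ∑ p ∈ range n, if μ p then 1 else 0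

/-- number of inner cuts of the mask -/
def cuts (μ : ℕ → Bool) (n : ℕ) : ℤ :=
  ∑ p ∈ range n, if p + 1 < n ∧ μ p ≠ μ (p + 1) then 1 else 0

/-- lengths of the words -/
def len (m g : ℕ) : ℕ → ℕ
  | 0 => 2 * g
  | j + 1 => (2 * m) * (len m g j + m ^ j * g)

/-- the words -/
def sg (m g : ℕ) : ℕ → ℕ → ℤ
  | 0, _ => 1
  | j + 1, p => if p % (len m g j + m ^ j * g) < len m g j then
      sg m g j (p % (len m g j + m ^ j * g)) else -1

theorem cuts_nonneg (μ : ℕ → Bool) (n : ℕ) : 0 ≤ cuts μ n := by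
  unfold cuts
  exact sum_nonneg (fun p _ => by split_ifs <;> norm_num)

theorem sum_periods (F : ℕ → ℤ) (P M : ℕ) :
    ∑ p ∈ range (M * P), F p = ∑ i ∈ range M, ∑ q ∈ range P, F (i * P + q) := by
  induction M with
  | zero => simp
  | succ M ih => rw [Nat.succ_mul, sum_range_add, ih, sum_range_succ]

theorem V_add (s : ℕ → ℤ) (μ : ℕ → Bool) (a b : ℕ) :
    V s μ (a + b) = V s μ a + V (fun p => s (a + p)) (fun p => μ (a + p)) b := by
  unfold V
  rw [sum_range_add]

theorem cnt_add (μ : ℕ → Bool) (a b : ℕ) :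
    cnt μ (a + b) = cnt μ a + cnt (fun p => μ (a + p)) b := by
  unfold cnt
  rw [sum_range_add]

theorem cuts_add (μ : ℕ → Bool) (a b : ℕ) :
    cuts μ a + cuts (fun p => μ (a + p)) b ≤ cuts μ (a + b) := by
  unfold cuts
  rw [sum_range_add]
  refine add_le_add (sum_le_sum fun p _ => ?_) (sum_le_sum fun p _ => ?_)
  · by_cases h : p + 1 < a ∧ μ p ≠ μ (p + 1)
    · rw [if_pos h, if_pos ⟨by omega, h.2⟩]
    · rw [if_neg h]
      split_ifs <;> norm_num
  · by_cases h : p + 1 < b ∧ μ (a + p) ≠ μ (a + (p + 1))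
    · rw [if_pos h, if_pos ⟨by omega, by simpa [add_assoc] using h.2⟩]
    · rw [if_neg h]
      split_ifs <;> norm_num

theorem cuts_periods (μ : ℕ → Bool) (P M : ℕ) :
    ∑ i ∈ range M, cuts (fun q => μ (i * P + q)) P ≤ cuts μ (M * P) := by
  induction M with
  | zero => simp [cuts]
  | succ M ih =>
    rw [Nat.succ_mul, sum_range_succ]
    exact le_trans (by linarith) (cuts_add μ (M * P) P)

theorem cnt_congr {μ ν : ℕ → Bool} {n : ℕ} (h : ∀ p, p < n → μ p = ν p) : cnt μ n = cnt ν n := by
  unfold cnt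
  exact sum_congr rfl fun p hp => by rw [h p (mem_range.1 hp)]

theorem cnt_nonneg (μ : ℕ → Bool) (n : ℕ) : 0 ≤ cnt μ n := by
  unfold cnt
  exact sum_nonneg (fun p _ => by split_ifs <;> norm_num)

/-- a mask without cuts is constant -/
theorem const_of_cuts {μ : ℕ → Bool} {n : ℕ} (h : cuts μ n = 0) :
    ∀ p, p < n → μ p = μ 0 := by
  have h2 : ∀ p ∈ range n, (if p + 1 < n ∧ μ p ≠ μ (p + 1) then (1 : ℤ) else 0) = 0 := by
    refine (sum_eq_zero_iff_of_nonneg (fun p _ => ?_)).1 h
    split_ifs <;> norm_num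
  intro p
  induction p with
  | zero => intro _; rfl
  | succ p ih =>
    intro hp
    have h3 := h2 p (mem_range.2 (by omega))
    have h4 : μ p = μ (p + 1) := by
      by_contra hne
      rw [if_pos ⟨hp, hne⟩] at h3
      exact one_ne_zero h3
    rw [← h4, ih (by omega)]

theorem one_le_cuts {μ : ℕ → Bool} {n p q : ℕ} (hp : p < n) (hq : q < n) (h : μ p ≠ μ q) :
    1 ≤ cuts μ n := by
  by_contra hlt
  have h0 : cuts μ n = 0 := le_antisymm (by omega) (cuts_nonneg μ n)
  exact h ((const_of_cuts h0 p hp).trans (const_of_cuts h0 q hq).symm)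

theorem V_const_true (s : ℕ → ℤ) {μ : ℕ → Bool} {n : ℕ} (h : ∀ p, p < n → μ p = true) :
    V s μ n = ∑ p ∈ range n, s p := by
  unfold V
  exact sum_congr rfl fun p hp => by rw [h p (mem_range.1 hp)]; simp

theorem V_const_false (s : ℕ → ℤ) {μ : ℕ → Bool} {n : ℕ} (h : ∀ p, p < n → μ p = false) :
    V s μ n = 0 := by
  unfold V
  exact sum_eq_zero fun p hp => by rw [h p (mem_range.1 hp)]; simp

theorem V_le_cnt {s : ℕ → ℤ} (hs : ∀ p, s p ≤ 1) (μ : ℕ → Bool) (n : ℕ) : V s μ n ≤ cnt μ n := by
  unfold V cnt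
  refine sum_le_sum fun p _ => ?_
  split_ifs
  · exact hs p
  · exact le_refl 0

theorem V_diff_le {s : ℕ → ℤ} (hs : ∀ p, s p ≤ 1) {μ ν : ℕ → Bool} {n : ℕ}
    (h : ∀ p, p < n → ν p = true → μ p = true) : V s μ n - V s ν n ≤ cnt μ n - cnt ν n := by
  unfold V cnt
  rw [← sum_sub_distrib, ← sum_sub_distrib]
  refine sum_le_sum fun p hp => ?_
  have h1 := h p (mem_range.1 hp)
  have h2 := hs p
  cases hμ : μ p <;> cases hν : ν p <;> simp_all

section Words

variable (m g : ℕ)

theorem sg_le_one (j p : ℕ) : sg m g j p ≤ 1 := by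
  induction j generalizing p with
  | zero => simp [sg]
  | succ j ih =>
    simp only [sg]
    split_ifs
    · exact ih _
    · norm_num

theorem sg_abs (j p : ℕ) : sg m g j p = 1 ∨ sg m g j p = -1 := by
  induction j generalizing p with
  | zero => simp [sg]
  | succ j ih =>
    simp only [sg]
    split_ifs
    · exact ih _
    · right; rfl

theorem sg_succ_lt (j i q : ℕ) (hq : q < len m g j) :
    sg m g (j + 1) (i * (len m g j + m ^ j * g) + q) = sg m g j q := by
  have h : (i * (len m g j + m ^ j * g) + q) % (len m g j + m ^ j * g) = q := by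
    rw [add_comm, Nat.add_mul_mod_self_right, Nat.mod_eq_of_lt (by omega)]
  simp only [sg, h]
  rw [if_pos hq]

theorem sg_succ_ge (j i q : ℕ) (hq : q < m ^ j * g) :
    sg m g (j + 1) (i * (len m g j + m ^ j * g) + (len m g j + q)) = -1 := by
  have h : (i * (len m g j + m ^ j * g) + (len m g j + q)) % (len m g j + m ^ j * g)
      = len m g j + q := by
    rw [add_comm, Nat.add_mul_mod_self_right, Nat.mod_eq_of_lt (by omega)]
  simp only [sg, h]
  rw [if_neg (by omega)]

/-- one period of `W_(j+1)` -/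
theorem V_period (j i : ℕ) (μ : ℕ → Bool) :
    ∑ q ∈ range (len m g j + m ^ j * g),
      (if μ (i * (len m g j + m ^ j * g) + q) then
        sg m g (j + 1) (i * (len m g j + m ^ j * g) + q) else 0) =
    V (sg m g j) (fun q => μ (i * (len m g j + m ^ j * g) + q)) (len m g j) -
      cnt (fun q => μ (i * (len m g j + m ^ j * g) + (len m g j + q))) (m ^ j * g) := by
  rw [sum_range_add]
  unfold V cnt
  rw [sub_eq_add_neg, ← sum_neg_distrib]
  congr 1
  · refine sum_congr rfl fun q hq => ?_
    rw [sg_succ_lt m g j i q (mem_range.1 hq)]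
  · refine sum_congr rfl fun q hq => ?_
    rw [sg_succ_ge m g j i q (mem_range.1 hq)]
    split_ifs <;> simp

theorem V_succ (j : ℕ) (μ : ℕ → Bool) :
    V (sg m g (j + 1)) μ (len m g (j + 1)) =
      ∑ i ∈ range (2 * m), (V (sg m g j) (fun q => μ (i * (len m g j + m ^ j * g) + q))
        (len m g j) -
        cnt (fun q => μ (i * (len m g j + m ^ j * g) + (len m g j + q))) (m ^ j * g)) := by
  have h : V (sg m g (j + 1)) μ (len m g (j + 1)) =
      ∑ p ∈ range ((2 * m) * (len m g j + m ^ j * g)), (if μ p then sg m g (j + 1) p else 0) := rfl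
  rw [h, sum_periods (fun p => if μ p then sg m g (j + 1) p else 0)]
  exact sum_congr rfl fun i _ => V_period m g j i μ

theorem cnt_succ (j : ℕ) (μ : ℕ → Bool) :
    cnt μ (len m g (j + 1)) =
      ∑ i ∈ range (2 * m), (cnt (fun q => μ (i * (len m g j + m ^ j * g) + q)) (len m g j) +
        cnt (fun q => μ (i * (len m g j + m ^ j * g) + (len m g j + q))) (m ^ j * g)) := by
  have h : cnt μ (len m g (j + 1)) =
      ∑ p ∈ range ((2 * m) * (len m g j + m ^ j * g)), (if μ p then (1 : ℤ) else 0) := rfl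
  rw [h, sum_periods (fun p => if μ p then (1 : ℤ) else 0)]
  refine sum_congr rfl fun i _ => ?_
  rw [sum_range_add]
  rfl

theorem cuts_succ (j : ℕ) (μ : ℕ → Bool) :
    ∑ i ∈ range (2 * m), (cuts (fun q => μ (i * (len m g j + m ^ j * g) + q)) (len m g j) +
        cuts (fun q => μ (i * (len m g j + m ^ j * g) + (len m g j + q))) (m ^ j * g)) ≤
      cuts μ (len m g (j + 1)) := by
  refine le_trans (sum_le_sum fun i _ => ?_) (cuts_periods μ (len m g j + m ^ j * g) (2 * m))
  exact cuts_add (fun q => μ (i * (len m g j + m ^ j * g) + q)) (len m g j) (m ^ j * g)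

/-- total height of `W_j` -/
theorem height (j : ℕ) : ∑ p ∈ range (len m g j), sg m g j p = 2 * (m ^ j * g : ℕ) := by
  induction j with
  | zero => simp [sg, len]
  | succ j ih =>
    have h := V_succ m g j (fun _ => true)
    have h1 : V (sg m g (j + 1)) (fun _ => true) (len m g (j + 1)) =
        ∑ p ∈ range (len m g (j + 1)), sg m g (j + 1) p :=
      V_const_true _ (fun _ _ => rfl)
    have h2 : V (sg m g j) (fun _ => true) (len m g j) = ∑ p ∈ range (len m g j), sg m g j p :=
      V_const_true _ (fun _ _ => rfl)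
    have h3 : cnt (fun _ => true) (m ^ j * g) = ((m ^ j * g : ℕ) : ℤ) := by simp [cnt]
    rw [h1] at h
    rw [h]
    have h4 : ∀ i ∈ range (2 * m), (V (sg m g j) (fun _ => true) (len m g j) -
        cnt (fun _ => true) (m ^ j * g)) = ((m ^ j * g : ℕ) : ℤ) := by
      intro i _
      rw [h2, ih, h3]
      ring
    rw [sum_congr rfl h4, sum_const, card_range]
    simp only [nsmul_eq_mul]
    push_cast
    ring

/-- the period lemma, given the bound for `W_j` -/
theorem period_le (j : ℕ) (hB : ∀ δ : ℕ → Bool,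
      V (sg m g j) δ (len m g j) ≤ 2 * (1 + cuts δ (len m g j)) * (m ^ j * g : ℕ))
    (δ : ℕ → Bool) (hb : ¬ ∀ q, q < m ^ j * g → δ (len m g j + q) = true) :
    V (sg m g j) δ (len m g j) - cnt (fun q => δ (len m g j + q)) (m ^ j * g) ≤
      4 * cuts δ (len m g j + m ^ j * g) * (m ^ j * g : ℕ) := by
  have hg : (0 : ℤ) ≤ ((m ^ j * g : ℕ) : ℤ) := Int.natCast_nonneg _
  rcases eq_or_ne (cuts δ (len m g j + m ^ j * g)) 0 with h0 | h0
  · have hc := const_of_cuts h0
    push Not at hb
    obtain ⟨q, hq, hq2⟩ := hb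
    have h1 : δ 0 = false := by
      rw [← hc (len m g j + q) (by omega)]
      exact Bool.eq_false_iff.2 hq2
    rw [V_const_false _ (fun p hp => by rw [hc p (by omega), h1]), h0]
    have := cnt_nonneg (fun q => δ (len m g j + q)) (m ^ j * g)
    simpa using this
  · have h1 : 1 ≤ cuts δ (len m g j + m ^ j * g) := by
      have := cuts_nonneg δ (len m g j + m ^ j * g)
      omega
    have h2 : cuts δ (len m g j) ≤ cuts δ (len m g j + m ^ j * g) := by
      have h3 := cuts_add δ (len m g j) (m ^ j * g)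
      have h4 := cuts_nonneg (fun p => δ (len m g j + p)) (m ^ j * g)
      linarith
    have h3 := cnt_nonneg (fun q => δ (len m g j + q)) (m ^ j * g)
    have h4 := hB δ
    have h5 : 2 * (1 + cuts δ (len m g j)) ≤ 4 * cuts δ (len m g j + m ^ j * g) := by linarith
    nlinarith [mul_le_mul_of_nonneg_right h5 hg]

/-- a subset of `W_j` with few cuts has a small sum -/
theorem bound (hm : 2 ≤ m) (j : ℕ) (δ : ℕ → Bool) :
    V (sg m g j) δ (len m g j) ≤ 2 * (1 + cuts δ (len m g j)) * (m ^ j * g : ℕ) := by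
  induction j generalizing δ with
  | zero =>
    have h1 := V_le_cnt (sg_le_one m g 0) δ (len m g 0)
    have h2 : cnt δ (len m g 0) ≤ 2 * g := by
      unfold cnt
      refine le_trans (sum_le_sum (g := fun _ => (1 : ℤ)) fun p _ => ?_) ?_
      · split_ifs <;> norm_num
      · simp [len]
    have h3 := cuts_nonneg δ (len m g 0)
    have h4 : (0 : ℤ) ≤ (g : ℤ) := Int.natCast_nonneg _
    simp only [pow_zero, one_mul]
    nlinarith [mul_nonneg h3 h4]
  | succ j ih =>
    rw [V_succ]
    set P := len m g j + m ^ j * g with hP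
    have hg : (0 : ℤ) ≤ ((m ^ j * g : ℕ) : ℤ) := Int.natCast_nonneg _
    have key : ∀ i ∈ range (2 * m), (V (sg m g j) (fun q => δ (i * P + q)) (len m g j) -
        cnt (fun q => δ (i * P + (len m g j + q))) (m ^ j * g)) ≤
        ((m ^ j * g : ℕ) : ℤ) + 4 * cuts (fun q => δ (i * P + q)) P * (m ^ j * g : ℕ) := by
      intro i _
      by_cases hb : ∀ q, q < m ^ j * g → δ (i * P + (len m g j + q)) = true
      · rcases eq_or_ne (cuts (fun q => δ (i * P + q)) P) 0 with h0 | h0
        · rcases Nat.eq_zero_or_pos (m ^ j * g) with hz | hpos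
          · have h1 := ih (fun q => δ (i * P + q))
            have h2 := cnt_nonneg (fun q => δ (i * P + (len m g j + q))) (m ^ j * g)
            rw [hz] at h1 ⊢
            rw [hz] at h2
            simp only [Nat.cast_zero, mul_zero] at h1 ⊢
            linarith
          · have hc := const_of_cuts h0
            have h1 : δ (i * P + 0) = true := by
              rw [← hc (len m g j + 0) (by omega)]
              exact hb 0 hpos
            rw [V_const_true _ (fun p hp => by rw [hc p (by omega)]; exact h1), height]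
            have h2 : cnt (fun q => δ (i * P + (len m g j + q))) (m ^ j * g) =
                ((m ^ j * g : ℕ) : ℤ) := by
              rw [cnt_congr (ν := fun _ => true) (fun p hp => hb p hp)]
              simp [cnt]
            rw [h2, h0]
            linarith
        · have h1 : 1 ≤ cuts (fun q => δ (i * P + q)) P := by
            have := cuts_nonneg (fun q => δ (i * P + q)) P
            omega
          have h2 : cuts (fun q => δ (i * P + q)) (len m g j) ≤
              cuts (fun q => δ (i * P + q)) P := by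
            have h3 := cuts_add (fun q => δ (i * P + q)) (len m g j) (m ^ j * g)
            have h4 := cuts_nonneg (fun p => δ (i * P + (len m g j + p))) (m ^ j * g)
            rw [hP]
            linarith
          have h3 := cnt_nonneg (fun q => δ (i * P + (len m g j + q))) (m ^ j * g)
          have h4 := ih (fun q => δ (i * P + q))
          have h5 : 2 * (1 + cuts (fun q => δ (i * P + q)) (len m g j)) ≤
              4 * cuts (fun q => δ (i * P + q)) P := by linarith
          nlinarith [mul_le_mul_of_nonneg_right h5 hg]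
      · have h1 := period_le m g j ih (fun q => δ (i * P + q)) hb
        linarith
    refine le_trans (sum_le_sum key) ?_
    rw [sum_add_distrib, ← sum_mul, ← mul_sum, sum_const, card_range]
    have h1 := cuts_periods δ P (2 * m)
    have h2 : len m g (j + 1) = 2 * m * P := rfl
    rw [h2]
    have h3 : ((m ^ (j + 1) * g : ℕ) : ℤ) = m * ((m ^ j * g : ℕ) : ℤ) := by push_cast; ring
    rw [h3]
    have h4 : 4 * (∑ i ∈ range (2 * m), cuts (fun q => δ (i * P + q)) P) * ((m ^ j * g : ℕ) : ℤ)
        ≤ 4 * cuts δ (2 * m * P) * ((m ^ j * g : ℕ) : ℤ) :=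
      mul_le_mul_of_nonneg_right (by linarith) hg
    have h5 := cuts_nonneg δ (2 * m * P)
    have hm' : (2 : ℤ) ≤ m := by exact_mod_cast hm
    have h6 : 4 * cuts δ (2 * m * P) * ((m ^ j * g : ℕ) : ℤ) ≤
        2 * m * cuts δ (2 * m * P) * ((m ^ j * g : ℕ) : ℤ) := by
      refine mul_le_mul_of_nonneg_right ?_ hg
      nlinarith
    simp only [nsmul_eq_mul]
    push_cast at h4 h6 ⊢
    nlinarith

end Words

/-! ## Processes -/

/-- discrete intermediate value: a property that holds at `a` and fails at `b` is lost once -/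
theorem exists_last {P : ℕ → Prop} {a b : ℕ} (hab : a ≤ b) (ha : P a) (hb : ¬ P b) :
    ∃ c, a ≤ c ∧ c < b ∧ P c ∧ ¬ P (c + 1) := by
  induction b, hab using Nat.le_induction with
  | base => exact absurd ha hb
  | succ b hab ih =>
    by_cases h : P b
    · exact ⟨b, hab, Nat.lt_succ_self b, h, hb⟩
    · obtain ⟨c, h1, h2, h3, h4⟩ := ih h
      exact ⟨c, h1, Nat.lt_succ_of_lt h2, h3, h4⟩

/-- A shrinking process on a finite family of copies of `W_j` together with a set of `-1`s. -/
structure Pr (m g j : ℕ) (A : Type) [Fintype A] (μ : ℕ → A → ℕ → Bool) (d : ℕ → ℤ)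
    (e : ℤ) (u : ℤ) (t₀ t₁ : ℕ) : Prop where
  le : t₀ ≤ t₁
  mono : ∀ t a p, t₀ ≤ t → t < t₁ → p < len m g j → μ (t + 1) a p = true → μ t a p = true
  dmono : ∀ t, t₀ ≤ t → t < t₁ → d (t + 1) ≤ d t
  step : ∀ t, t₀ ≤ t → t < t₁ →
    ∑ a, (cnt (μ t a) (len m g j) - cnt (μ (t + 1) a) (len m g j)) + (d t - d (t + 1)) ≤ e
  bal : ∀ t, t₀ ≤ t → t ≤ t₁ → |∑ a, V (sg m g j) (μ t a) (len m g j) - d t| ≤ e
  cut : ∀ t, t₀ ≤ t → t ≤ t₁ → ∑ a, cuts (μ t a) (len m g j) ≤ u

section Proc

variable {m g j : ℕ} {A : Type} [Fintype A] {μ : ℕ → A → ℕ → Bool} {d : ℕ → ℤ}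
  {e u : ℤ} {t₀ t₁ : ℕ}

theorem Pr.mono' (h : Pr m g j A μ d e u t₀ t₁) (a : A) {p : ℕ} (hp : p < len m g j)
    {s t : ℕ} (h0 : t₀ ≤ s) (hst : s ≤ t) (h1 : t ≤ t₁) (hμ : μ t a p = true) :
    μ s a p = true := by
  induction t, hst using Nat.le_induction with
  | base => exact hμ
  | succ t hst ih => exact ih (by omega) (h.mono t a p (by omega) (by omega) hp hμ)

theorem Pr.dmono' (h : Pr m g j A μ d e u t₀ t₁)
    {s t : ℕ} (h0 : t₀ ≤ s) (hst : s ≤ t) (h1 : t ≤ t₁) : d t ≤ d s := by
  induction t, hst using Nat.le_induction with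
  | base => exact le_refl _
  | succ t hst ih => exact le_trans (h.dmono t (by omega) (by omega)) (ih (by omega))

theorem cnt_mono {μ ν : ℕ → Bool} {n : ℕ} (h : ∀ p, p < n → ν p = true → μ p = true) :
    cnt ν n ≤ cnt μ n := by
  unfold cnt
  refine sum_le_sum fun p hp => ?_
  have h1 := h p (mem_range.1 hp)
  cases hμ : μ p <;> cases hν : ν p <;> simp_all

/-- restriction to a subinterval of times -/
theorem Pr.sub (h : Pr m g j A μ d e u t₀ t₁) {s₀ s₁ : ℕ} (h0 : t₀ ≤ s₀) (h01 : s₀ ≤ s₁)
    (h1 : s₁ ≤ t₁) : Pr m g j A μ d e u s₀ s₁ where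
  le := h01
  mono := fun t a p ht ht' => h.mono t a p (by omega) (by omega)
  dmono := fun t ht ht' => h.dmono t (by omega) (by omega)
  step := fun t ht ht' => h.step t (by omega) (by omega)
  bal := fun t ht ht' => h.bal t (by omega) (by omega)
  cut := fun t ht ht' => h.cut t (by omega) (by omega)

/-- masks of the copies of `W_j` in copies of `W_(j+1)` -/
def rμ (m g j : ℕ) {A : Type} (μ : ℕ → A → ℕ → Bool) : ℕ → A × Fin (2 * m) → ℕ → Bool :=
  fun t x q => μ t x.1 (x.2.val * (len m g j + m ^ j * g) + q)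

/-- mask of the block after the copy -/
def bμ (m g j : ℕ) {A : Type} (μ : ℕ → A → ℕ → Bool) : ℕ → A × Fin (2 * m) → ℕ → Bool :=
  fun t x q => μ t x.1 (x.2.val * (len m g j + m ^ j * g) + (len m g j + q))

/-- the new set of `-1`s -/
def rd (m g j : ℕ) {A : Type} [Fintype A] (μ : ℕ → A → ℕ → Bool) (d : ℕ → ℤ) : ℕ → ℤ :=
  fun t => d t + ∑ x : A × Fin (2 * m), cnt (bμ m g j μ t x) (m ^ j * g)

theorem sum_prod_fin (F : A → ℕ → ℤ) (M : ℕ) :
    ∑ x : A × Fin M, F x.1 x.2.val = ∑ a, ∑ i ∈ range M, F a i := by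
  rw [Fintype.sum_prod_type]
  exact sum_congr rfl fun a _ => Fin.sum_univ_eq_sum_range (F a) M

theorem r_V (μ : ℕ → A → ℕ → Bool) (d : ℕ → ℤ) (t : ℕ) :
    ∑ x, V (sg m g j) (rμ m g j μ t x) (len m g j) - rd m g j μ d t =
      ∑ a, V (sg m g (j + 1)) (μ t a) (len m g (j + 1)) - d t := by
  have h1 : ∑ a, V (sg m g (j + 1)) (μ t a) (len m g (j + 1)) =
      ∑ x : A × Fin (2 * m), (V (sg m g j) (rμ m g j μ t x) (len m g j) -
        cnt (bμ m g j μ t x) (m ^ j * g)) := by
    rw [sum_congr rfl fun a _ => V_succ m g j (μ t a)]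
    exact (sum_prod_fin (fun a i => V (sg m g j)
      (fun q => μ t a (i * (len m g j + m ^ j * g) + q)) (len m g j) -
      cnt (fun q => μ t a (i * (len m g j + m ^ j * g) + (len m g j + q))) (m ^ j * g))
      (2 * m)).symm
  rw [h1, sum_sub_distrib]
  unfold rd
  ring

theorem r_cnt (μ : ℕ → A → ℕ → Bool) (d : ℕ → ℤ) (t : ℕ) :
    ∑ x, cnt (rμ m g j μ t x) (len m g j) + rd m g j μ d t =
      ∑ a, cnt (μ t a) (len m g (j + 1)) + d t := by
  have h1 : ∑ a, cnt (μ t a) (len m g (j + 1)) =
      ∑ x : A × Fin (2 * m), (cnt (rμ m g j μ t x) (len m g j) +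
        cnt (bμ m g j μ t x) (m ^ j * g)) := by
    rw [sum_congr rfl fun a _ => cnt_succ m g j (μ t a)]
    exact (sum_prod_fin (fun a i => cnt
      (fun q => μ t a (i * (len m g j + m ^ j * g) + q)) (len m g j) +
      cnt (fun q => μ t a (i * (len m g j + m ^ j * g) + (len m g j + q))) (m ^ j * g))
      (2 * m)).symm
  rw [h1, sum_add_distrib]
  unfold rd
  ring

theorem r_cuts (μ : ℕ → A → ℕ → Bool) (t : ℕ) :
    ∑ x, cuts (rμ m g j μ t x) (len m g j) + ∑ x, cuts (bμ m g j μ t x) (m ^ j * g) ≤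
      ∑ a, cuts (μ t a) (len m g (j + 1)) := by
  rw [← sum_add_distrib]
  have h1 := sum_prod_fin (A := A) (fun a i => cuts
      (fun q => μ t a (i * (len m g j + m ^ j * g) + q)) (len m g j) +
      cuts (fun q => μ t a (i * (len m g j + m ^ j * g) + (len m g j + q))) (m ^ j * g)) (2 * m)
  refine le_trans (le_of_eq h1) (sum_le_sum fun a _ => ?_)
  exact cuts_succ m g j (μ t a)

theorem idx_lt {m g j : ℕ} (i : Fin (2 * m)) {q : ℕ} (hq : q < len m g j + m ^ j * g) :
    i.val * (len m g j + m ^ j * g) + q < len m g (j + 1) := by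
  have h1 : len m g (j + 1) = (2 * m) * (len m g j + m ^ j * g) := rfl
  have h2 : (i.val + 1) * (len m g j + m ^ j * g) ≤ (2 * m) * (len m g j + m ^ j * g) :=
    Nat.mul_le_mul_right _ i.isLt
  rw [h1]
  rw [Nat.succ_mul] at h2
  omega

/-- the refined process -/
theorem Pr.refine (h : Pr m g (j + 1) A μ d e u t₀ t₁) :
    Pr m g j (A × Fin (2 * m)) (rμ m g j μ) (rd m g j μ d) e u t₀ t₁ where
  le := h.le
  mono := fun t x p ht ht' hp => h.mono t x.1 _ ht ht' (idx_lt x.2 (by omega))
  dmono := by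
    intro t ht ht'
    unfold rd
    have h1 := h.dmono t ht ht'
    have h2 : ∑ x : A × Fin (2 * m), cnt (bμ m g j μ (t + 1) x) (m ^ j * g) ≤
        ∑ x : A × Fin (2 * m), cnt (bμ m g j μ t x) (m ^ j * g) :=
      sum_le_sum fun x _ => cnt_mono fun p hp =>
        h.mono t x.1 _ ht ht' (idx_lt x.2 (by omega))
    linarith
  step := by
    intro t ht ht'
    have h1 := h.step t ht ht'
    have h2 := r_cnt (m := m) (g := g) (j := j) μ d t
    have h3 := r_cnt (m := m) (g := g) (j := j) μ d (t + 1)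
    rw [sum_sub_distrib] at h1 ⊢
    linarith
  bal := by
    intro t ht ht'
    rw [r_V]
    exact h.bal t ht ht'
  cut := by
    intro t ht ht'
    have h1 := r_cuts (m := m) (g := g) (j := j) μ t
    have h2 := h.cut t ht ht'
    have h3 : 0 ≤ ∑ x, cuts (bμ m g j μ t x) (m ^ j * g) := sum_nonneg fun x _ => cuts_nonneg _ _
    linarith

/-- the refined process while a block is cut -/
theorem Pr.refine' (h : Pr m g (j + 1) A μ d e u t₀ t₁) (x : A × Fin (2 * m))
    (hx : ∀ t, t₀ ≤ t → t ≤ t₁ → 1 ≤ cuts (bμ m g j μ t x) (m ^ j * g)) :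
    Pr m g j (A × Fin (2 * m)) (rμ m g j μ) (rd m g j μ d) e (u - 1) t₀ t₁ where
  le := h.le
  mono := h.refine.mono
  dmono := h.refine.dmono
  step := h.refine.step
  bal := h.refine.bal
  cut := by
    intro t ht ht'
    have h1 := r_cuts (m := m) (g := g) (j := j) μ t
    have h2 := h.cut t ht ht'
    have h3 : 1 ≤ ∑ x, cuts (bμ m g j μ t x) (m ^ j * g) :=
      le_trans (hx t ht ht') (single_le_sum (f := fun x => cuts (bμ m g j μ t x) (m ^ j * g))
        (fun x _ => cuts_nonneg _ _) (mem_univ x))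
    linarith

/-- cuts of a difference of masks -/
theorem cuts_diff (μ ν : ℕ → Bool) (n : ℕ) :
    cuts (fun p => μ p && !(ν p)) n ≤ cuts μ n + cuts ν n := by
  unfold cuts
  rw [← sum_add_distrib]
  refine sum_le_sum fun p _ => ?_
  by_cases hp : p + 1 < n
  · cases h1 : μ p <;> cases h2 : μ (p + 1) <;> cases h3 : ν p <;> cases h4 : ν (p + 1) <;>
      simp [h1, h2, h3, h4, hp]
  · simp [hp]

theorem V_diff (s : ℕ → ℤ) {μ ν : ℕ → Bool} {n : ℕ}
    (h : ∀ p, p < n → ν p = true → μ p = true) :
    V s (fun p => μ p && !(ν p)) n = V s μ n - V s ν n := by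
  unfold V
  rw [← sum_sub_distrib]
  refine sum_congr rfl fun p hp => ?_
  have h1 := h p (mem_range.1 hp)
  cases hμ : μ p <;> cases hν : ν p <;> simp_all

/-- a large loss needs a completely erased block -/
theorem exists_block (hm : 2 ≤ m) (h : Pr m g (j + 1) A μ d e u t₀ t₁)
    (hloss : 8 * u * (m ^ j * g : ℕ) < ∑ a, V (sg m g (j + 1)) (μ t₀ a) (len m g (j + 1)) -
      ∑ a, V (sg m g (j + 1)) (μ t₁ a) (len m g (j + 1))) :
    ∃ x : A × Fin (2 * m), ∀ q, q < m ^ j * g →
      bμ m g j μ t₀ x q = true ∧ bμ m g j μ t₁ x q = false := by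
  by_contra hcon
  push Not at hcon
  set δ : A → ℕ → Bool := fun a p => μ t₀ a p && !(μ t₁ a p) with hδ
  have hsub : ∀ a p, p < len m g (j + 1) → μ t₁ a p = true → μ t₀ a p = true :=
    fun a p hp hμ => h.mono' a hp (le_refl _) h.le (le_refl _) hμ
  have h1 : ∑ a, V (sg m g (j + 1)) (μ t₀ a) (len m g (j + 1)) -
      ∑ a, V (sg m g (j + 1)) (μ t₁ a) (len m g (j + 1)) =
      ∑ a, V (sg m g (j + 1)) (δ a) (len m g (j + 1)) := by
    rw [← sum_sub_distrib]
    exact sum_congr rfl fun a _ => (V_diff _ (hsub a)).symm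
  have h2 : ∀ a, V (sg m g (j + 1)) (δ a) (len m g (j + 1)) ≤
      4 * cuts (δ a) (len m g (j + 1)) * (m ^ j * g : ℕ) := by
    intro a
    rw [V_succ]
    have key : ∀ i ∈ range (2 * m), (V (sg m g j)
        (fun q => δ a (i * (len m g j + m ^ j * g) + q)) (len m g j) -
        cnt (fun q => δ a (i * (len m g j + m ^ j * g) + (len m g j + q))) (m ^ j * g)) ≤
        4 * cuts (fun q => δ a (i * (len m g j + m ^ j * g) + q)) (len m g j + m ^ j * g) *
          (m ^ j * g : ℕ) := by
      intro i hi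
      refine period_le m g j (bound m g hm j)
        (fun q => δ a (i * (len m g j + m ^ j * g) + q)) ?_
      intro hall
      obtain ⟨q, hq, hq2⟩ := hcon (a, ⟨i, mem_range.1 hi⟩)
      have h3 := hall q hq
      simp only [hδ, Bool.and_eq_true, Bool.not_eq_true'] at h3
      exact hq2 h3.1 h3.2
    refine le_trans (sum_le_sum key) ?_
    rw [← sum_mul, ← mul_sum]
    have h4 := cuts_periods (δ a) (len m g j + m ^ j * g) (2 * m)
    exact mul_le_mul_of_nonneg_right (mul_le_mul_of_nonneg_left h4 (by norm_num))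
      (Int.natCast_nonneg _)
  have h3 : ∑ a, cuts (δ a) (len m g (j + 1)) ≤ 2 * u := by
    have h4 : ∑ a, cuts (δ a) (len m g (j + 1)) ≤ ∑ a, (cuts (μ t₀ a) (len m g (j + 1)) +
        cuts (μ t₁ a) (len m g (j + 1))) := sum_le_sum fun a _ => cuts_diff _ _ _
    rw [sum_add_distrib] at h4
    have h5 := h.cut t₀ (le_refl _) h.le
    have h6 := h.cut t₁ h.le (le_refl _)
    linarith
  have h4 : ∑ a, V (sg m g (j + 1)) (δ a) (len m g (j + 1)) ≤ 8 * u * (m ^ j * g : ℕ) := by
    refine le_trans (sum_le_sum fun a _ => h2 a) ?_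
    rw [← sum_mul, ← mul_sum]
    have hg : (0 : ℤ) ≤ ((m ^ j * g : ℕ) : ℤ) := Int.natCast_nonneg _
    nlinarith [mul_le_mul_of_nonneg_right h3 hg]
  linarith

/-- no cuts, no loss -/
theorem loss_zero (hg : 0 < len m g j) (he : e < len m g j)
    (h : Pr m g j A μ d e 0 t₀ t₁) :
    ∑ a, V (sg m g j) (μ t₀ a) (len m g j) = ∑ a, V (sg m g j) (μ t₁ a) (len m g j) := by
  have hconst : ∀ t, t₀ ≤ t → t ≤ t₁ → ∀ a p, p < len m g j → μ t a p = μ t a 0 := by
    intro t ht ht' a
    refine const_of_cuts ?_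
    have h1 := h.cut t ht ht'
    have h2 := single_le_sum (f := fun a => cuts (μ t a) (len m g j))
      (fun a _ => cuts_nonneg _ _) (mem_univ a)
    have h3 := cuts_nonneg (μ t a) (len m g j)
    have h4 : cuts (μ t a) (len m g j) ≤ 0 := le_trans h2 h1
    omega
  have hstep : ∀ t, t₀ ≤ t → t < t₁ → ∀ a, μ (t + 1) a 0 = μ t a 0 := by
    intro t ht ht' a
    by_contra hne
    have h1 : μ t a 0 = true := by
      cases hb : μ t a 0
      · cases hc : μ (t + 1) a 0
        · exact absurd (hc.trans hb.symm) hne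
        · exact absurd ((h.mono t a 0 ht ht' hg hc).symm.trans hb) (by simp)
      · rfl
    have h2 : μ (t + 1) a 0 = false := by
      rw [h1] at hne
      exact Bool.eq_false_iff.2 hne
    have h3 : cnt (μ t a) (len m g j) = len m g j := by
      rw [cnt_congr (ν := fun _ => true) (fun p hp => by
        rw [hconst t ht (by omega) a p hp, h1])]
      simp [cnt]
    have h4 : cnt (μ (t + 1) a) (len m g j) = 0 := by
      rw [cnt_congr (ν := fun _ => false) (fun p hp => by
        rw [hconst (t + 1) (by omega) (by omega) a p hp, h2])]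
      simp [cnt]
    have h5 := h.step t ht ht'
    have h6 := h.dmono t ht ht'
    have h7 := single_le_sum (f := fun a => cnt (μ t a) (len m g j) -
      cnt (μ (t + 1) a) (len m g j))
      (fun a _ => sub_nonneg.2 (cnt_mono fun p hp => h.mono t a p ht ht' hp)) (mem_univ a)
    simp only [h3, h4] at h7
    linarith
  have hall : ∀ t, t₀ ≤ t → t ≤ t₁ → ∀ a, μ t a 0 = μ t₀ a 0 := by
    intro t ht
    induction t, ht using Nat.le_induction with
    | base => intro _ a; rfl
    | succ t ht ih => intro ht' a; rw [hstep t ht (by omega) a, ih (by omega) a]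
  refine sum_congr rfl fun a _ => ?_
  unfold V
  refine sum_congr rfl fun p hp => ?_
  rw [hconst t₀ (le_refl _) h.le a p (mem_range.1 hp),
    hconst t₁ h.le (le_refl _) a p (mem_range.1 hp), hall t₁ h.le (le_refl _) a]

/-- **Claim(j, u).** A process with at most `u ≤ j` cuts inside the copies of `W_j` loses
at most `8 u g_(j-1)` on the copies. -/
theorem claim (hm : 2 ≤ m) (hg : 0 < g) (J : ℕ) (hJ : 8 * J + 4 ≤ m)
    (he : 4 * e < g) (u : ℕ) : ∀ (j : ℕ), u ≤ j → u ≤ J → ∀ (A : Type) [Fintype A]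
    (μ : ℕ → A → ℕ → Bool) (d : ℕ → ℤ) (t₀ t₁ : ℕ), Pr m g j A μ d e u t₀ t₁ →
    ∑ a, V (sg m g j) (μ t₀ a) (len m g j) - ∑ a, V (sg m g j) (μ t₁ a) (len m g j) ≤
      8 * u * (m ^ (j - 1) * g : ℕ) := by
  have hlen : ∀ j, g ≤ len m g j := by
    intro j
    induction j with
    | zero => show g ≤ 2 * g; omega
    | succ j ih =>
      show g ≤ (2 * m) * (len m g j + m ^ j * g)
      calc g ≤ 1 * (len m g j + m ^ j * g) := by omega
        _ ≤ _ := Nat.mul_le_mul_right _ (by omega)
  induction u with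
  | zero =>
    intro j _ _ A _ μ d t₀ t₁ h
    have h1 := loss_zero (lt_of_lt_of_le hg (hlen j))
      (by have := hlen j; zify at this; linarith) (by simpa using h)
    simp [h1]
  | succ u ih =>
    intro j' hj hu A _ μ d t₀ t₁ h
    obtain ⟨j, rfl⟩ : ∃ j, j' = j + 1 := ⟨j' - 1, by omega⟩
    by_contra hcon
    push Not at hcon
    rw [Nat.add_sub_cancel] at hcon
    obtain ⟨x, hx⟩ := exists_block hm h hcon
    have hgj : g ≤ m ^ j * g := Nat.le_mul_of_pos_left g (Nat.pow_pos (by omega))
    have hgpos : 0 < m ^ j * g := lt_of_lt_of_le hg hgj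
    -- last time the block is complete
    obtain ⟨s₀, hs1, hs2, hs3, hs4⟩ := exists_last
      (P := fun t => ∀ q, q < m ^ j * g → bμ m g j μ t x q = true) h.le
      (fun q hq => (hx q hq).1)
      (by intro hc; have := hc 0 hgpos; rw [(hx 0 hgpos).2] at this; exact Bool.noConfusion this)
    -- first time the block is erased
    obtain ⟨s₁, hr1, hr2, hr3, hr4⟩ := exists_last
      (P := fun t => ¬ ∀ q, q < m ^ j * g → bμ m g j μ t x q = false) (a := s₀) (b := t₁)
      (le_of_lt hs2)
      (by intro hc; have := hc 0 hgpos; rw [hs3 0 hgpos] at this; exact Bool.noConfusion this)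
      (by intro hc; exact hc (fun q hq => (hx q hq).2))
    rw [not_not] at hr4
    have hbm : ∀ s t, t₀ ≤ s → s ≤ t → t ≤ t₁ → ∀ q, q < m ^ j * g → bμ m g j μ t x q = true →
        bμ m g j μ s x q = true := fun s t h0 hst h1 q hq hb =>
      h.mono' x.1 (idx_lt x.2 (by omega)) h0 hst h1 hb
    -- the refined process
    have href := h.refine
    have hcntb : ∀ t, (∀ q, q < m ^ j * g → bμ m g j μ t x q = true) →
        cnt (bμ m g j μ t x) (m ^ j * g) = ((m ^ j * g : ℕ) : ℤ) := by
      intro t ht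
      rw [cnt_congr (ν := fun _ => true) ht]
      simp [cnt]
    have hcntf : ∀ t, (∀ q, q < m ^ j * g → bμ m g j μ t x q = false) →
        cnt (bμ m g j μ t x) (m ^ j * g) = 0 := by
      intro t ht
      rw [cnt_congr (ν := fun _ => false) ht]
      simp [cnt]
    -- the loss of `-1`s between `s₀` and `s₁ + 1`
    have hdl : ((m ^ j * g : ℕ) : ℤ) ≤ rd m g j μ d s₀ - rd m g j μ d (s₁ + 1) := by
      unfold rd
      have h1 := h.dmono' hs1 (show s₀ ≤ s₁ + 1 by omega) (by omega)
      have h2 : ((m ^ j * g : ℕ) : ℤ) ≤ ∑ y, (cnt (bμ m g j μ s₀ y) (m ^ j * g) -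
          cnt (bμ m g j μ (s₁ + 1) y) (m ^ j * g)) := by
        have h3 := single_le_sum (f := fun y => cnt (bμ m g j μ s₀ y) (m ^ j * g) -
          cnt (bμ m g j μ (s₁ + 1) y) (m ^ j * g))
          (fun y _ => sub_nonneg.2 (cnt_mono fun p hp hb =>
            h.mono' y.1 (idx_lt y.2 (by omega)) hs1 (by omega) (by omega) hb)) (mem_univ x)
        simp only [hcntb s₀ hs3, hcntf (s₁ + 1) hr4, sub_zero] at h3
        exact h3
      rw [sum_sub_distrib] at h2
      linarith
    have hb0 := href.bal s₀ hs1 (by omega)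
    have hb1 := href.bal (s₁ + 1) (by omega) (by omega)
    rw [abs_le] at hb0 hb1
    -- the steps at the ends
    have hst : ∀ t, t₀ ≤ t → t < t₁ →
        ∑ y, V (sg m g j) (rμ m g j μ t y) (len m g j) -
          ∑ y, V (sg m g j) (rμ m g j μ (t + 1) y) (len m g j) ≤ e := by
      intro t ht ht'
      have h1 := href.step t ht ht'
      have h2 := href.dmono t ht ht'
      have h3 : ∑ y, V (sg m g j) (rμ m g j μ t y) (len m g j) -
          ∑ y, V (sg m g j) (rμ m g j μ (t + 1) y) (len m g j) ≤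
          ∑ y, (cnt (rμ m g j μ t y) (len m g j) - cnt (rμ m g j μ (t + 1) y) (len m g j)) := by
        rw [← sum_sub_distrib]
        exact sum_le_sum fun y _ => V_diff_le (sg_le_one m g j)
          (fun p hp => href.mono t y p ht ht' hp)
      linarith
    rcases Nat.lt_or_ge s₀ s₁ with hlt | hge
    · -- at least two steps
      have hcut : ∀ t, s₀ + 1 ≤ t → t ≤ s₁ → 1 ≤ cuts (bμ m g j μ t x) (m ^ j * g) := by
        intro t ht ht'
        obtain ⟨q, hq, hq2⟩ : ∃ q, q < m ^ j * g ∧ bμ m g j μ t x q = false := by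
          by_contra hno
          push Not at hno
          refine hs4 fun q hq => ?_
          refine hbm (s₀ + 1) t (by omega) ht (by omega) q hq ?_
          exact (Bool.not_eq_false _).mp (hno q hq)
        obtain ⟨q', hq', hq2'⟩ : ∃ q, q < m ^ j * g ∧ bμ m g j μ t x q = true := by
          by_contra hno
          push Not at hno
          refine hr3 fun q hq => ?_
          by_contra hne
          exact hno q hq (hbm t s₁ (by omega) ht' (by omega) q hq
            ((Bool.not_eq_false _).mp hne))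
        exact one_le_cuts hq hq' (by rw [hq2, hq2']; simp)
      have hsub := (h.sub (s₀ := s₀ + 1) (s₁ := s₁) (by omega) (by omega) (by omega)).refine' x hcut
      have hsub' : Pr m g j (A × Fin (2 * m)) (rμ m g j μ) (rd m g j μ d) e (u : ℤ)
          (s₀ + 1) s₁ := by
        have : ((u + 1 : ℕ) : ℤ) - 1 = (u : ℤ) := by push_cast; ring
        rwa [this] at hsub
      have hI := ih j (by omega) (by omega) _ _ _ _ _ hsub'
      have h1 := hst s₀ hs1 (by omega)
      have h2 := hst s₁ (by omega) hr2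
      have h3 : ((m ^ j * g : ℕ) : ℤ) ≤ 8 * u * (m ^ (j - 1) * g : ℕ) + 4 * e := by linarith
      rcases Nat.eq_zero_or_pos j with rfl | hjp
      · have hu0 : u = 0 := by omega
        rw [hu0] at h3
        simp only [pow_zero, one_mul, Nat.cast_zero, mul_zero, zero_mul, zero_add] at h3
        linarith
      · obtain ⟨i, rfl⟩ : ∃ i, j = i + 1 := ⟨j - 1, by omega⟩
        rw [Nat.add_sub_cancel] at h3
        have h4 : ((m ^ (i + 1) * g : ℕ) : ℤ) = m * ((m ^ i * g : ℕ) : ℤ) := by push_cast; ring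
        have h5 : (g : ℤ) ≤ ((m ^ i * g : ℕ) : ℤ) := by
          exact_mod_cast Nat.le_mul_of_pos_left g (Nat.pow_pos (by omega))
        have h6 : (8 * (u : ℤ) + 4) ≤ m := by
          have : 8 * u + 4 ≤ m := by omega
          exact_mod_cast this
        rw [h4] at h3
        nlinarith [mul_le_mul_of_nonneg_right h6 (le_trans (Int.natCast_nonneg g) h5)]
    · -- one step
      have hs : s₁ = s₀ := by omega
      rw [hs] at hdl
      have h1 := href.step s₀ hs1 (by omega)
      have h2 : 0 ≤ ∑ y, (cnt (rμ m g j μ s₀ y) (len m g j) -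
          cnt (rμ m g j μ (s₀ + 1) y) (len m g j)) :=
        sum_nonneg fun y _ => sub_nonneg.2
          (cnt_mono fun p hp => href.mono s₀ y p hs1 (by omega) hp)
      have h3 : (g : ℤ) ≤ ((m ^ j * g : ℕ) : ℤ) := by exact_mod_cast hgj
      linarith

end Proc

/-- length of the whole word `W_J D^(2 g_J)` -/
def tot (m g J : ℕ) : ℕ := len m g J + 2 * (m ^ J * g)

/-- the sign sequence of the whole word -/
def sig (m g J : ℕ) (p : ℕ) : ℤ := if p < len m g J then sg m g J p else -1

theorem sig_abs (m g J p : ℕ) : sig m g J p = 1 ∨ sig m g J p = -1 := by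
  unfold sig
  split_ifs
  · exact sg_abs m g J p
  · right; rfl

/-- **The one-dimensional lemma.** -/
theorem oneD (J m g : ℕ) (hJ : 8 * J + 4 ≤ m) (hg : 0 < g) (e : ℤ)
    (he : 4 * e < g) (X : ℕ → ℕ → Bool) (T : ℕ)
    (h0 : ∀ p, p < tot m g J → X 0 p = true)
    (hmono : ∀ t p, t < T → p < tot m g J → X (t + 1) p = true → X t p = true)
    (hstep : ∀ t, t < T → cnt (X t) (tot m g J) - cnt (X (t + 1)) (tot m g J) ≤ e)
    (hbal : ∀ t, t ≤ T → |V (sig m g J) (X t) (tot m g J)| ≤ e)
    (hcut : ∀ t, t ≤ T → cuts (X t) (tot m g J) ≤ J)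
    (hT : cnt (X T) (tot m g J) ≤ e) : False := by
  have hm : 2 ≤ m := by omega
  have hV : ∀ μ : ℕ → Bool, V (sig m g J) μ (tot m g J) = V (sg m g J) μ (len m g J) -
      cnt (fun q => μ (len m g J + q)) (2 * (m ^ J * g)) := by
    intro μ
    unfold tot
    rw [V_add]
    have h1 : V (sig m g J) μ (len m g J) = V (sg m g J) μ (len m g J) := by
      unfold V
      refine sum_congr rfl fun p hp => ?_
      unfold sig
      rw [if_pos (mem_range.1 hp)]
    have h2 : V (fun p => sig m g J (len m g J + p)) (fun p => μ (len m g J + p))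
        (2 * (m ^ J * g)) = - cnt (fun q => μ (len m g J + q)) (2 * (m ^ J * g)) := by
      unfold V cnt
      rw [← sum_neg_distrib]
      refine sum_congr rfl fun p hp => ?_
      have h3 : sig m g J (len m g J + p) = -1 := by
        unfold sig
        rw [if_neg (by omega)]
      show (if μ (len m g J + p) = true then sig m g J (len m g J + p) else 0) =
        -(if μ (len m g J + p) = true then 1 else 0)
      rw [h3]
      split_ifs <;> simp
    rw [h1, h2]
    ring
  have hP : Pr m g J Unit (fun t _ => X t)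
      (fun t => cnt (fun q => X t (len m g J + q)) (2 * (m ^ J * g))) e (J : ℕ) 0 T := by
    refine ⟨Nat.zero_le _, ?_, ?_, ?_, ?_, ?_⟩
    · intro t a p _ ht hp
      exact hmono t p ht (by unfold tot; omega)
    · intro t _ ht
      exact cnt_mono fun p hp => hmono t _ ht (by unfold tot; omega)
    · intro t _ ht
      have h1 := hstep t ht
      unfold tot at h1
      rw [cnt_add, cnt_add] at h1
      simp only [univ_unique, sum_singleton]
      linarith
    · intro t _ ht
      have h1 := hbal t ht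
      rw [hV] at h1
      simpa using h1
    · intro t _ ht
      have h1 := hcut t ht
      have h2 := cuts_add (X t) (len m g J) (2 * (m ^ J * g))
      have h3 := cuts_nonneg (fun p => X t (len m g J + p)) (2 * (m ^ J * g))
      simp only [univ_unique, sum_singleton]
      unfold tot at h1
      linarith
  have hC := claim hm hg J hJ he J J (le_refl _) (le_refl _) Unit _ _ _ _ hP
  simp only [univ_unique, sum_singleton] at hC
  have h1 : V (sg m g J) (X 0) (len m g J) = 2 * (m ^ J * g : ℕ) := by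
    rw [V_const_true _ (fun p hp => h0 p (by unfold tot; omega)), height]
  have h2 : V (sg m g J) (X T) (len m g J) ≤ e := by
    have h3 := V_le_cnt (sg_le_one m g J) (X T) (len m g J)
    unfold tot at hT
    rw [cnt_add] at hT
    have h4 := cnt_nonneg (fun p => X T (len m g J + p)) (2 * (m ^ J * g))
    linarith
  rw [h1] at hC
  rcases Nat.eq_zero_or_pos J with rfl | hJp
  · simp only [pow_zero, one_mul, Nat.cast_zero, mul_zero, zero_mul] at hC
    have : (0 : ℤ) < g := by exact_mod_cast hg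
    linarith
  · obtain ⟨i, rfl⟩ : ∃ i, J = i + 1 := ⟨J - 1, by omega⟩
    rw [Nat.add_sub_cancel] at hC
    have h4 : ((m ^ (i + 1) * g : ℕ) : ℤ) = m * ((m ^ i * g : ℕ) : ℤ) := by push_cast; ring
    have h5 : (g : ℤ) ≤ ((m ^ i * g : ℕ) : ℤ) := by
      exact_mod_cast Nat.le_mul_of_pos_left g (Nat.pow_pos (by omega))
    have h6 : (8 * ((i + 1 : ℕ) : ℤ) + 4) ≤ m := by exact_mod_cast hJ
    rw [h4] at hC
    have h7 : (0 : ℤ) < g := by exact_mod_cast hg
    nlinarith [mul_le_mul_of_nonneg_right h6 (le_trans (Int.natCast_nonneg g) h5)]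

end Pool.Agent.Z3
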